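import Pool.Agent.U562.BI.Defs

/-!
# Definitions for the size of the light-segment set
-/

set_option autoImplicit false

open MeasureTheory Metric Set Filter Topology
open scoped ENNReal

namespace Pool.Agent.U562.LS

open Pool.Agent.U562.BI (E InS)

/-- The class `𝒴_φ(Ω)`: `v` is bounded and locally `1`-Lipschitz in `Ω` (that is
`v ∈ W^{1,∞}(Ω)`, `|Dv| ≤ 1` almost everywhere), and `v = φ` on `∂Ω` in the sense that `v` tends to
`φ(x)` at every `x ∈ ∂Ω` along every straight segment in `Ω` with end point `x`. -/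
def InYs {m : ℕ} (Ω : Set (E m)) (φ v : E m → ℝ) : Prop :=
  (∃ C : ℝ, ∀ x ∈ Ω, |v x| ≤ C) ∧
  (∀ x ∈ Ω, ∃ r > 0, ball x r ⊆ Ω ∧ LipschitzOnWith 1 v (ball x r)) ∧
  ∀ x ∈ frontier Ω, ∀ y, openSegment ℝ x y ⊆ Ω →
    Tendsto (fun t : ℝ => v (x + t • (y - x))) (𝓝[>] 0) (𝓝 (φ x))

/-- The action `I_ρ(v) = ∫_Ω (1 - √(1 - |Dv|²)) dx - ∫_Ω ρ v dx` of the measure `ρ dx`. -/
noncomputable def action {m : ℕ} (Ω : Set (E m)) (ρ v : E m → ℝ) : ℝ :=
  (∫ x in Ω, (1 - √(1 - ‖fderiv ℝ v x‖ ^ 2))) - ∫ x in Ω, ρ x * v x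

/-- `u` minimises `I_ρ` on `𝒴_φ(Ω)`. -/
def Minimises {m : ℕ} (Ω : Set (E m)) (φ ρ u : E m → ℝ) : Prop :=
  InYs Ω φ u ∧ ∀ v, InYs Ω φ v → action Ω ρ u ≤ action Ω ρ v

/-- The union of the light segments of `u`: the closed segments `xy` in `Ω`, `x ≠ y`, with
`|u(x) - u(y)| = |x - y|`. -/
def lightUnion {m : ℕ} (Ω : Set (E m)) (u : E m → ℝ) : Set (E m) :=
  {z | ∃ x y, x ≠ y ∧ segment ℝ x y ⊆ Ω ∧ |u x - u y| = dist x y ∧ z ∈ segment ℝ x y}

/-- The light-segment set `K`: the closure in `ℝᵐ` of the union of the light segments. -/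
def lightSet {m : ℕ} (Ω : Set (E m)) (u : E m → ℝ) : Set (E m) := closure (lightUnion Ω u)

end Pool.Agent.U562.LS
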