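import Pool.Agent.U562.LS.Seven

/-!
# The light-segment set of the superposition
-/

set_option autoImplicit false

open MeasureTheory Metric Set Real Filter Topology
open scoped ENNReal

namespace Pool.Agent.U562.LS

open Pool.Agent.U562.BI (E InS pathDist)

variable {n : ℕ} {Ω : Set (E (n + 3))} {ε : ℕ → ℝ}

/-- The first basis vector. -/
noncomputable def e0 (n : ℕ) : E (n + 3) := EuclideanSpace.single 0 1

theorem norm_e0 : ‖e0 n‖ = 1 := by simp [e0]

theorem bl_axis {t : ℝ} (ht : |t| ≤ 1) : bl (t • e0 n) = t := by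
  have h0 : (t • e0 n).ofLp 0 = t := by simp [e0]
  have hs : ss (t • e0 n) = 0 := by
    unfold ss
    refine Finset.sum_eq_zero fun i _ => ?_
    simp [e0]
  rw [bl_light (by rw [h0]; exact ht) hs, h0]

theorem fb_axis {c : E (n + 3)} {r : ℝ} (hr : 0 < r) {t : ℝ} (ht : |t| ≤ r / 36) :
    fb c r (c + t • e0 n) = t := by
  unfold fb
  rw [add_sub_cancel_left, smul_smul, bl_axis]
  · field_simp
  · rw [abs_mul, abs_of_pos (by positivity : 0 < 36 / r)]
    calc 36 / r * |t| ≤ 36 / r * (r / 36) := by gcongr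
      _ = 1 := by field_simp

theorem centre_mem (hε : ∀ k, 0 < ε k) {k : ℕ} (hk : 0 < rr Ω (qq n) ε k) :
    qq n k ∈ lightUnion Ω (uu Ω ε) := by
  set r := rr Ω (qq n) ε k with hr
  set c := qq n k with hc
  have hball : ∀ t : ℝ, |t| ≤ r / 36 → c + t • e0 n ∈ ball c r := by
    intro t ht
    rw [mem_ball, dist_eq_norm, add_sub_cancel_left, norm_smul, norm_e0, mul_one,
      Real.norm_eq_abs]
    linarith
  have hval : ∀ t : ℝ, |t| ≤ r / 36 → uu Ω ε (c + t • e0 n) = t := by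
    intro t ht
    rw [uu_ball hε (hball t ht), fb_axis hk ht]
  have ha : |r / 36| ≤ r / 36 := by rw [abs_of_pos (by positivity)]
  have hb : |(-(r / 36))| ≤ r / 36 := by rw [abs_neg, abs_of_pos (by positivity)]
  have hdist : dist (c + (-(r / 36)) • e0 n) (c + (r / 36) • e0 n) = r / 18 := by
    rw [dist_add_left, dist_eq_norm, ← sub_smul, norm_smul, norm_e0, mul_one, Real.norm_eq_abs]
    have : -(r / 36) - r / 36 = -(r / 18) := by ring
    rw [this, abs_neg, abs_of_pos (by positivity)]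
  have hΩ : ball c r ⊆ Ω := ball_subset_closedBall.trans (cb_subset hk)
  refine ⟨c + (-(r / 36)) • e0 n, c + (r / 36) • e0 n, ?_, ?_, ?_, ?_⟩
  · intro h
    rw [h, dist_self] at hdist
    linarith
  · exact ((convex_ball c r).segment_subset (hball _ hb) (hball _ ha)).trans hΩ
  · rw [hval _ hb, hval _ ha, hdist]
    have : -(r / 36) - r / 36 = -(r / 18) := by ring
    rw [this, abs_neg, abs_of_pos (by positivity)]
  · have := midpoint_mem_segment (𝕜 := ℝ) (c + (-(r / 36)) • e0 n) (c + (r / 36) • e0 n)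
    convert this using 1
    rw [midpoint_eq_smul_add, neg_smul]
    have e : c + -((r / 36) • e0 n) + (c + (r / 36) • e0 n) = (2 : ℝ) • c := by
      rw [two_smul]
      abel
    rw [e, smul_smul]
    norm_num

theorem mem_lightSet (hO : IsOpen Ω) (hne : (Ωᶜ).Nonempty) (hε : ∀ k, 0 < ε k)
    (hε0 : Tendsto ε atTop (𝓝 0)) {x : E (n + 3)} (hx : x ∈ Ω)
    (hxb : ∀ k, x ∉ closedBall (qq n k) (rr Ω (qq n) ε k)) : x ∈ lightSet Ω (uu Ω ε) := by
  unfold lightSet
  rw [Metric.mem_closure_iff]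
  intro η hη
  have hq : Ω ⊆ closure (range (qq n)) := by
    have : closure (range (qq n)) = univ := (TopologicalSpace.denseRange_denseSeq _).closure_range
    rw [this]
    exact subset_univ _
  obtain ⟨k, hk1, hk2, hk3⟩ := near_centre hO hne hε hε0 hq hx hxb (half_pos hη)
  refine ⟨qq n k, centre_mem hε hk1, ?_⟩
  rw [dist_comm]
  linarith

theorem uu_mem (hO : IsOpen Ω) (hε : ∀ k, 0 < ε k)
    (hε1 : ∀ k, ε k ≤ (1 / 2) ^ k) : InYs Ω (fun _ => 0) (uu Ω ε) := by
  have hlip := uu_lip (n := n) (Ω := Ω) hε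
  refine ⟨⟨1, fun x _ => ?_⟩, fun x hx => ?_, fun x hx y _ => ?_⟩
  · by_cases hx : x ∈ UB Ω ε
    · obtain ⟨k, hk⟩ := mem_iUnion.1 hx
      rw [uu_ball hε hk]
      refine (fb_abs _ (rr_nonneg hε k) x).trans ?_
      exact ((rr_le k).trans (hε1 k)).trans (pow_le_one₀ (by norm_num) (by norm_num))
    · rw [uu_out hε hx, abs_zero]
      exact zero_le_one
  · obtain ⟨r, hr, hr2⟩ := Metric.isOpen_iff.1 hO x hx
    exact ⟨r, hr, hr2, hlip.lipschitzOnWith⟩
  · have hxΩ : x ∉ Ω := by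
      rw [hO.frontier_eq] at hx
      exact hx.2
    have h0 : uu Ω ε x = 0 := uu_out hε fun h => hxΩ (UB_subset hε h)
    have hc : Continuous fun t : ℝ => uu Ω ε (x + t • (y - x)) := hlip.continuous.comp (by fun_prop)
    have h1 := hc.tendsto 0
    rw [zero_smul, add_zero, h0] at h1
    exact h1.mono_left nhdsWithin_le_nhds

theorem exists_radii {η : ℝ} (hη : 0 < η) : ∃ ε : ℕ → ℝ, (∀ k, 0 < ε k) ∧
    (∀ k, ε k ≤ (1 / 2) ^ k) ∧ ∀ k, ∀ x : E (n + 3), volume (closedBall x (ε k))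
      ≤ ENNReal.ofReal (η * (1 / 2) ^ (k + 1)) := by
  set ω := (volume (closedBall (0 : E (n + 3)) 1)).toReal with hω
  have hω0 : 0 ≤ ω := ENNReal.toReal_nonneg
  refine ⟨fun k => min ((1 / 2) ^ k) (η * (1 / 2) ^ (k + 1) / (ω + 1)), fun k => by positivity,
    fun k => min_le_left _ _, fun k x => ?_⟩
  set e := min ((1 / 2 : ℝ) ^ k) (η * (1 / 2) ^ (k + 1) / (ω + 1)) with he
  have he0 : 0 < e := by positivity
  have he1 : e ≤ 1 := (min_le_left _ _).trans (pow_le_one₀ (by norm_num) (by norm_num))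
  have he2 : e ≤ η * (1 / 2) ^ (k + 1) / (ω + 1) := min_le_right _ _
  rw [Measure.addHaar_closedBall' _ _ he0.le]
  have h1 : volume (closedBall (0 : E (n + 3)) 1) = ENNReal.ofReal ω :=
    (ENNReal.ofReal_toReal measure_closedBall_lt_top.ne).symm
  rw [h1, ← ENNReal.ofReal_mul (by positivity)]
  apply ENNReal.ofReal_le_ofReal
  have h2 : e ^ Module.finrank ℝ (E (n + 3)) ≤ e := by
    have h3 : Module.finrank ℝ (E (n + 3)) = (n + 2) + 1 := by simp
    rw [h3, pow_succ]
    have := pow_le_one₀ (n := n + 2) he0.le he1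
    nlinarith
  calc e ^ Module.finrank ℝ (E (n + 3)) * ω ≤ e * (ω + 1) := by gcongr; linarith
    _ ≤ η * (1 / 2) ^ (k + 1) / (ω + 1) * (ω + 1) := by gcongr
    _ = η * (1 / 2) ^ (k + 1) := by field_simp

theorem volume_diff (hO : IsOpen Ω) (hne : (Ωᶜ).Nonempty) (hε : ∀ k, 0 < ε k)
    (hε1 : ∀ k, ε k ≤ (1 / 2) ^ k) {η : ℝ} (hη : 0 < η)
    (hv : ∀ k, ∀ x : E (n + 3), volume (closedBall x (ε k)) ≤ ENNReal.ofReal (η * (1 / 2) ^ (k + 1))) :
    volume (Ω \ lightSet Ω (uu Ω ε)) ≤ ENNReal.ofReal η := by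
  have hε0 : Tendsto ε atTop (𝓝 0) :=
    squeeze_zero (fun k => (hε k).le) hε1
      (tendsto_pow_atTop_nhds_zero_of_lt_one (by norm_num) (by norm_num))
  have hsub : Ω \ lightSet Ω (uu Ω ε) ⊆ ⋃ k, closedBall (qq n k) (rr Ω (qq n) ε k) := by
    rintro x ⟨hx1, hx2⟩
    by_contra h
    rw [mem_iUnion, not_exists] at h
    exact hx2 (mem_lightSet hO hne hε hε0 hx1 h)
  refine (measure_mono hsub).trans ((measure_iUnion_le _).trans ?_)
  have h1 : ∀ k, volume (closedBall (qq n k) (rr Ω (qq n) ε k))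
      ≤ ENNReal.ofReal (η * (1 / 2) ^ (k + 1)) := fun k =>
    (measure_mono (closedBall_subset_closedBall (rr_le k))).trans (hv k _)
  refine (ENNReal.tsum_le_tsum h1).trans ?_
  have hs : HasSum (fun k : ℕ => η * (1 / 2 : ℝ) ^ (k + 1)) η := by
    have h2 := (hasSum_geometric_two).mul_left (η / 2)
    have e : (fun k : ℕ => η / 2 * (1 / 2 : ℝ) ^ k) = fun k => η * (1 / 2 : ℝ) ^ (k + 1) := by
      funext k
      rw [pow_succ]
      ring
    have e' : η / 2 * 2 = η := by ring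
    rw [e, e'] at h2
    exact h2
  rw [← ENNReal.ofReal_tsum_of_nonneg (fun k => by positivity) hs.summable, hs.tsum_eq]

theorem hausdorff_top {K : Set (E (n + 3))} (hK : IsClosed K) (hv : volume K ≠ 0) :
    μH[(n : ℝ) + 2] K = ∞ := by
  have h := Measure.hausdorffMeasure_zero_or_top (X := E (n + 3)) (d₁ := (n : ℝ) + 2)
    (d₂ := (n : ℝ) + 3) (by linarith) K
  refine h.resolve_left fun h0 => hv ?_
  have h1 : LipschitzWith 1 (WithLp.ofLp : E (n + 3) → (Fin (n + 3) → ℝ)) :=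
    PiLp.lipschitzWith_ofLp 2 _
  have h2 := h1.hausdorffMeasure_image_le (d := (n : ℝ) + 3) (by positivity) K
  rw [h0, mul_zero, nonpos_iff_eq_zero] at h2
  have h3 : (μH[(n : ℝ) + 3] : Measure (Fin (n + 3) → ℝ)) = volume := by
    have := hausdorffMeasure_pi_real (ι := Fin (n + 3))
    rw [← this]
    congr 1
    simp
  rw [h3] at h2
  have h4 : (WithLp.ofLp : E (n + 3) → (Fin (n + 3) → ℝ)) '' K
      = (WithLp.toLp 2 : (Fin (n + 3) → ℝ) → E (n + 3)) ⁻¹' K := by
    ext y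
    constructor
    · rintro ⟨x, hx, rfl⟩
      exact hx
    · intro hy
      exact ⟨WithLp.toLp 2 y, hy, rfl⟩
  rw [h4, (PiLp.volume_preserving_toLp (Fin (n + 3))).measure_preimage
    hK.measurableSet.nullMeasurableSet] at h2
  exact h2

theorem inS_zero {m : ℕ} (Ω : Set (E m)) : InS Ω (fun _ => 0) := by
  refine ⟨continuousOn_const, fun x _ y _ hxy => ?_⟩
  rw [sub_self, abs_zero, ENNReal.ofReal_zero]
  have h1 : ENNReal.ofReal (dist x y) ≤ pathDist Ω x y := by
    unfold pathDist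
    refine le_iInf fun k => le_iInf fun p => le_iInf fun hp0 => le_iInf fun hpk =>
      le_iInf fun _ => le_iInf fun _ => ?_
    apply ENNReal.ofReal_le_ofReal
    have := dist_le_range_sum_dist p (k + 1)
    rwa [hp0, hpk] at this
  exact lt_of_lt_of_le (ENNReal.ofReal_pos.2 (dist_pos.2 hxy)) h1

theorem main (hO : IsOpen Ω) (hb : Bornology.IsBounded Ω) (hne : Ω.Nonempty) {η : ℝ}
    (hη : 0 < η) :
    ∃ ρ u : E (n + 3) → ℝ, Integrable ρ ∧ Minimises Ω (fun _ => 0) ρ u ∧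
      volume (Ω \ lightSet Ω u) ≤ ENNReal.ofReal η ∧ μH[(n : ℝ) + 2] (lightSet Ω u) = ∞ := by
  have hfin : volume Ω ≠ ∞ := hb.measure_lt_top.ne
  have hpos : 0 < volume Ω := hO.measure_pos volume hne
  have hcne : (Ωᶜ).Nonempty := by
    rw [Set.nonempty_compl]
    rintro rfl
    exact (measure_univ_of_isAddLeftInvariant (volume : Measure (E (n + 3)))) |> hfin
  have hV : 0 < (volume Ω).toReal := ENNReal.toReal_pos hpos.ne' hfin
  set η' := min η ((volume Ω).toReal / 2) with hη'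
  have hη0 : 0 < η' := by positivity
  obtain ⟨ε, hε, hε1, hεv⟩ := exists_radii (n := n) hη0
  have hvol := volume_diff hO hcne hε hε1 hη0 hεv
  refine ⟨rho Ω ε, uu Ω ε, rho_integrable hε hε1, ⟨uu_mem hO hε hε1, fun v hv =>
    action_le hO hb hε hε1 hv⟩, hvol.trans (ENNReal.ofReal_le_ofReal (min_le_left _ _)), ?_⟩
  apply hausdorff_top isClosed_closure
  intro h0
  have h1 : volume Ω ≤ volume (Ω \ lightSet Ω (uu Ω ε)) + volume (lightSet Ω (uu Ω ε)) := by
    refine (measure_mono ?_).trans (measure_union_le _ _)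
    intro x hx
    by_cases h : x ∈ lightSet Ω (uu Ω ε)
    · exact Or.inr h
    · exact Or.inl ⟨hx, h⟩
  have h0' : volume (lightSet Ω (uu Ω ε)) = 0 := h0
  rw [h0', add_zero] at h1
  have h2 := h1.trans (hvol.trans (ENNReal.ofReal_le_ofReal (min_le_right _ _)))
  have h3 : ENNReal.ofReal ((volume Ω).toReal / 2) < volume Ω := by
    nth_rewrite 2 [← ENNReal.ofReal_toReal hfin]
    exact (ENNReal.ofReal_lt_ofReal_iff hV).2 (by linarith)
  exact absurd h2 (not_le.2 h3)

end Pool.Agent.U562.LS
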