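import Pool.Agent.U562.LS.Four

/-!
# The block inequality
-/

set_option autoImplicit false

open MeasureTheory Metric Set Real Filter Topology
open scoped ENNReal

namespace Pool.Agent.U562.LS

open Pool.Agent.U562.BI (E)

variable {n : ℕ}

theorem sqrt_bounds (y : ℝ) (hy : 0 ≤ y) : 0 ≤ √(1 - y) ∧ √(1 - y) ≤ 1 := by
  refine ⟨Real.sqrt_nonneg _, Real.sqrt_le_iff.2 ⟨zero_le_one, ?_⟩⟩
  linarith

theorem integrable_sqrt {s : Set (E (n + 3))} (hs : volume s ≠ ∞) (v : E (n + 3) → ℝ) :
    IntegrableOn (fun x => √(1 - ‖fderiv ℝ v x‖ ^ 2)) s := by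
  have h1 : IntegrableOn (fun _ : E (n + 3) => (1 : ℝ)) s := integrableOn_const hs
  refine Integrable.mono' h1 ?_ (Eventually.of_forall fun x => ?_)
  · have h2 : Measurable fun x => ‖fderiv ℝ v x‖ := (measurable_fderiv ℝ v).norm
    have h3 : Measurable fun x => √(1 - ‖fderiv ℝ v x‖ ^ 2) :=
      Real.continuous_sqrt.measurable.comp (measurable_const.sub (h2.pow_const 2))
    exact h3.aestronglyMeasurable
  · obtain ⟨h2, h3⟩ := sqrt_bounds (‖fderiv ℝ v x‖ ^ 2) (sq_nonneg _)
    rw [Real.norm_eq_abs, abs_le]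
    constructor <;> linarith

theorem SD_measurable (lam : ℝ) : Measurable fun x : E (n + 3) => SD lam (x 0) (ss x) := by
  have c0 : ∀ i, Measurable (fun x : E (n + 3) => x i) := fun i =>
    (EuclideanSpace.proj i : E (n + 3) →L[ℝ] ℝ).continuous.measurable
  have cs : Measurable (ss : E (n + 3) → ℝ) := by
    unfold ss
    exact Finset.measurable_sum _ fun i _ => (c0 i.succ).pow_const 2
  have cU := UU_contDiff.continuous.measurable.comp (c0 0)
  have cU1 := U1_contDiff.continuous.measurable.comp (c0 0)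
  have cG := GG_contDiff.continuous.measurable.comp cs
  have cG1 := G1_contDiff.continuous.measurable.comp cs
  simp only [Function.comp_def] at cU cU1 cG cG1
  unfold SD PP
  fun_prop

theorem SD_bounds (lam : ℝ) (x : E (n + 3)) : 0 ≤ SD lam (x 0) (ss x) ∧ SD lam (x 0) (ss x) ≤ 1 :=
  sqrt_bounds _ (mul_nonneg (sq_nonneg _) (PP_nonneg (ss_nonneg x)))

theorem integrable_SD {s : Set (E (n + 3))} (hs : volume s ≠ ∞) (lam : ℝ) :
    IntegrableOn (fun x => SD lam (x 0) (ss x)) s := by
  have h1 : IntegrableOn (fun _ : E (n + 3) => (1 : ℝ)) s := integrableOn_const hs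
  refine Integrable.mono' h1 (SD_measurable lam).aestronglyMeasurable (Eventually.of_forall fun x => ?_)
  obtain ⟨h2, h3⟩ := SD_bounds lam x
  rw [Real.norm_eq_abs, abs_le]
  constructor <;> linarith

theorem block_lam {lam : ℝ} (hl : 0 ≤ lam) (h1 : lam < 1) {ψ : E (n + 3) → ℝ}
    (hψ : LipschitzWith 1 ψ) :
    ∫ x in ball 0 36, -dv (n + 2) lam (x 0) (ss x) * (ψ x - lam * bl x)
      ≤ ∫ x in ball 0 36, (SD lam (x 0) (ss x) - √(1 - ‖fderiv ℝ ψ x‖ ^ 2)) := by
  have hh : LipschitzWith (1 + 1) (fun x => ψ x - lam * bl x) := by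
    refine hψ.sub ?_
    refine LipschitzWith.of_dist_le_mul fun x y => ?_
    rw [Real.dist_eq, ← mul_sub, abs_mul, abs_of_nonneg hl, NNReal.coe_one, one_mul]
    have h2 := bl_lip.dist_le_mul x y
    rw [Real.dist_eq, NNReal.coe_one, one_mul] at h2
    have := abs_nonneg (bl x - bl y)
    nlinarith
  obtain ⟨i1, i2, e1⟩ := ibp_vec (VF_contDiff hl h1) (VF_compact lam) hh (VF_div hl h1)
  have hb : volume (ball (0 : E (n + 3)) 36) ≠ ∞ := measure_ball_lt_top.ne
  have e2 : ∫ x in ball 0 36, -dv (n + 2) lam (x 0) (ss x) * (ψ x - lam * bl x)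
      = ∫ x, -dv (n + 2) lam (x 0) (ss x) * (ψ x - lam * bl x) := by
    apply setIntegral_eq_integral_of_forall_compl_eq_zero
    intro x hx
    rw [mem_ball, dist_zero_right, not_lt] at hx
    rw [dv_supp (by linarith)]
    ring
  have e3 : ∫ x, -dv (n + 2) lam (x 0) (ss x) * (ψ x - lam * bl x)
      = ∫ x, fderiv ℝ (fun x => ψ x - lam * bl x) x (VF lam x) := by
    rw [e1, ← integral_neg]
    congr 1
    funext x
    ring
  have e4 : ∫ x in ball 0 36, fderiv ℝ (fun x => ψ x - lam * bl x) x (VF lam x)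
      = ∫ x, fderiv ℝ (fun x => ψ x - lam * bl x) x (VF lam x) := by
    apply setIntegral_eq_integral_of_forall_compl_eq_zero
    intro x hx
    rw [mem_ball, dist_zero_right, not_lt] at hx
    rw [VF_supp (by linarith), map_zero]
  rw [e2, e3, ← e4]
  refine integral_mono_ae i1.integrableOn ((integrable_SD hb lam).sub (integrable_sqrt hb ψ)) ?_
  filter_upwards [ae_restrict_of_ae hψ.ae_differentiableAt] with x hx
  have hn : ‖fderiv ℝ ψ x‖ ≤ 1 := by
    have := norm_fderiv_le_of_lipschitz ℝ hψ (x₀ := x)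
    simpa using this
  have h3 := dual_block hl h1 x hn
  have h4 : fderiv ℝ (fun x => ψ x - lam * bl x) x = fderiv ℝ ψ x - lam • fderiv ℝ bl x := by
    have hb' := (bl_hasFDeriv x).differentiableAt
    rw [fderiv_fun_sub hx (hb'.const_mul lam), fderiv_const_mul hb']
  rw [h4]
  simp only [ContinuousLinearMap.sub_apply, ContinuousLinearMap.smul_apply, smul_eq_mul,
    Pi.sub_apply]
  linarith

theorem block_ineq {ψ : E (n + 3) → ℝ} (hψ : LipschitzWith 1 ψ) :
    ∫ x in ball 0 36, rh x * (ψ x - bl x)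
      ≤ ∫ x in ball 0 36, (√(1 - ‖fderiv ℝ bl x‖ ^ 2) - √(1 - ‖fderiv ℝ ψ x‖ ^ 2)) := by
  obtain ⟨C, hC, hdom⟩ := dv_dom (n := n)
  have hb : volume (ball (0 : E (n + 3)) 36) ≠ ∞ := measure_ball_lt_top.ne
  set lk : ℕ → ℝ := fun k => 1 - 1 / (k + 2) with hlk
  have hl0 : ∀ k, 0 ≤ lk k := by
    intro k
    simp only [hlk]
    have h0 : (0 : ℝ) ≤ k := Nat.cast_nonneg k
    have : 1 / ((k : ℝ) + 2) ≤ 1 := by
      rw [div_le_one (by positivity)]
      linarith
    linarith
  have hl1 : ∀ k, lk k < 1 := by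
    intro k
    simp only [hlk]
    have : 0 < 1 / ((k : ℝ) + 2) := by positivity
    linarith
  have hlim : Tendsto lk atTop (𝓝 1) := by
    have h1 : Tendsto (fun k : ℕ => 1 / ((k : ℝ) + 2)) atTop (𝓝 0) := by
      have h2 : Tendsto (fun k : ℕ => (k : ℝ) + 2) atTop atTop :=
        tendsto_atTop_add_const_right _ _ tendsto_natCast_atTop_atTop
      simp only [one_div]
      exact h2.inv_tendsto_atTop
    have h3 := h1.const_sub 1
    rw [sub_zero] at h3
    exact h3
  -- pointwise convergence of the roots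
  have hS : ∀ x : E (n + 3), Tendsto (fun k => SD (lk k) (x 0) (ss x)) atTop
      (𝓝 (SD 1 (x 0) (ss x))) := by
    intro x
    unfold SD
    refine (Real.continuous_sqrt.tendsto _).comp ?_
    exact ((hlim.pow 2).mul_const _).const_sub 1
  have hbdψ : ∃ M, 0 ≤ M ∧ ∀ x ∈ ball (0 : E (n + 3)) 36, |ψ x| ≤ M := by
    obtain ⟨M, hM⟩ := (isCompact_closedBall (0 : E (n + 3)) 36).exists_bound_of_continuousOn
      hψ.continuous.continuousOn
    refine ⟨|M|, abs_nonneg M, fun x hx => ?_⟩
    exact (hM x (ball_subset_closedBall hx)).trans (le_abs_self M)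
  obtain ⟨M, hM0, hM⟩ := hbdψ
  have hblb : ∀ x ∈ ball (0 : E (n + 3)) 36, |bl x| ≤ 36 := by
    intro x hx
    have h1 := bl_lip.dist_le_mul x 0
    have h2 : bl (0 : E (n + 3)) = 0 := by
      have h0 : ss (0 : E (n + 3)) = 0 := by simp [ss]
      rw [bl_light (by simp) h0]
      simp
    rw [Real.dist_eq, h2, sub_zero, NNReal.coe_one, one_mul] at h1
    rw [mem_ball] at hx
    linarith
  have T1 : Tendsto (fun k => ∫ x in ball 0 36, -dv (n + 2) (lk k) (x 0) (ss x) * (ψ x - lk k * bl x))
      atTop (𝓝 (∫ x in ball 0 36, rh x * (ψ x - bl x))) := by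
    refine tendsto_integral_of_dominated_convergence (fun x => C * dom x * (M + 36)) ?_ ?_ ?_ ?_
    · intro k
      exact ((dv_measurable (lk k)).neg.aestronglyMeasurable.mul
        (hψ.continuous.sub (continuous_const.mul bl_lip.continuous)).aestronglyMeasurable)
    · exact ((dom_integrable.const_mul C).mul_const (M + 36)).integrableOn
    · intro k
      filter_upwards [ae_restrict_of_ae hdom, ae_restrict_mem measurableSet_ball] with x hx hxb
      rw [norm_mul, norm_neg, Real.norm_eq_abs, Real.norm_eq_abs]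
      have h1 := hx (lk k) (hl0 k) (hl1 k).le
      have h2 : |ψ x - lk k * bl x| ≤ M + 36 := by
        have h3 := abs_sub (ψ x) (lk k * bl x)
        have h4 : |lk k * bl x| ≤ 36 := by
          rw [abs_mul, abs_of_nonneg (hl0 k)]
          have := hblb x hxb
          have h5 := hl1 k
          have h6 := hl0 k
          have h7 := abs_nonneg (bl x)
          nlinarith
        have := hM x hxb
        linarith
      have h3 := dom_nonneg x
      gcongr
    · filter_upwards [ae_restrict_of_ae (ss_pos_ae (n := n))] with x hx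
      unfold rh
      refine Tendsto.mul (Tendsto.neg ?_) ?_
      · have hpos : 0 < SD 1 (x 0) (ss x) := by
          unfold SD
          rw [Real.sqrt_pos]
          have := PP_lt_one (t := x 0) hx
          linarith
        unfold dv
        refine Tendsto.add ?_ ?_
        · exact (hlim.mul_const _).div (hS x) hpos.ne'
        · exact ((hlim.pow 3).mul_const _).div (((hS x).pow 3).const_mul 2) (by positivity)
      · have := (hlim.mul_const (bl x)).const_sub (ψ x)
        simpa using this
  have T2 : Tendsto (fun k => ∫ x in ball 0 36, (SD (lk k) (x 0) (ss x) - √(1 - ‖fderiv ℝ ψ x‖ ^ 2)))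
      atTop (𝓝 (∫ x in ball 0 36, (SD 1 (x 0) (ss x) - √(1 - ‖fderiv ℝ ψ x‖ ^ 2)))) := by
    refine tendsto_integral_of_dominated_convergence (fun x => 2) ?_ ?_ ?_ ?_
    · intro k
      exact ((integrable_SD hb (lk k)).sub (integrable_sqrt hb ψ)).aestronglyMeasurable
    · exact integrableOn_const hb
    · intro k
      refine Eventually.of_forall fun x => ?_
      obtain ⟨h2, h3⟩ := SD_bounds (lk k) x
      obtain ⟨h4, h5⟩ := sqrt_bounds (‖fderiv ℝ ψ x‖ ^ 2) (sq_nonneg _)
      rw [Real.norm_eq_abs, abs_le]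
      constructor <;> linarith
    · exact Eventually.of_forall fun x => (hS x).sub_const _
  have h := le_of_tendsto_of_tendsto' T1 T2 fun k => block_lam (hl0 k) (hl1 k) hψ
  have e : ∀ x : E (n + 3), SD 1 (x 0) (ss x) = √(1 - ‖fderiv ℝ bl x‖ ^ 2) := by
    intro x
    unfold SD
    rw [norm_fderiv_bl, one_pow, one_mul]
  simp only [e] at h
  exact h

theorem scale_int {k r : ℝ} (hk : 0 < k) (hkr : k * r = 36) (c : E (n + 3))
    (G : E (n + 3) → ℝ) :
    ∫ x in ball c r, G (k • (x - c)) = |(k ^ (n + 3))⁻¹| * ∫ y in ball 0 36, G y := by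
  have h1 : ∀ x, (ball c r).indicator (fun x => G (k • (x - c))) x
      = (ball (0 : E (n + 3)) 36).indicator G (k • (x - c)) := by
    intro x
    by_cases hx : x ∈ ball c r
    · rw [indicator_of_mem hx, indicator_of_mem]
      rw [mem_ball, dist_zero_right, norm_smul, Real.norm_eq_abs, abs_of_pos hk, ← hkr]
      rw [mem_ball, dist_eq_norm] at hx
      exact mul_lt_mul_of_pos_left hx hk
    · rw [indicator_of_notMem hx, indicator_of_notMem]
      rw [mem_ball, dist_zero_right, norm_smul, Real.norm_eq_abs, abs_of_pos hk, ← hkr, not_lt]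
      rw [mem_ball, dist_eq_norm, not_lt] at hx
      exact mul_le_mul_of_nonneg_left hx hk.le
  rw [← integral_indicator measurableSet_ball, ← integral_indicator measurableSet_ball]
  simp only [h1]
  rw [integral_sub_right_eq_self (fun x => (ball (0 : E (n + 3)) 36).indicator G (k • x)) c,
    Measure.integral_comp_smul]
  simp

theorem scale_integrable {k r : ℝ} (hk : 0 < k) (hkr : k * r = 36) (c : E (n + 3))
    {G : E (n + 3) → ℝ} (hG : Integrable G) : Integrable (fun x => G (k • (x - c))) := by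
  have h1 : Integrable fun x => G (k • x) := hG.comp_smul hk.ne'
  exact h1.comp_sub_right c

/-- The scaled block. -/
noncomputable def fb (c : E (n + 3)) (r : ℝ) (x : E (n + 3)) : ℝ :=
  r / 36 * bl ((36 / r) • (x - c))

/-- The scaled source. -/
noncomputable def rb (c : E (n + 3)) (r : ℝ) (x : E (n + 3)) : ℝ :=
  36 / r * rh ((36 / r) • (x - c))

theorem fb_lip (c : E (n + 3)) {r : ℝ} (hr : 0 ≤ r) : LipschitzWith 1 (fb c r) := by
  rcases hr.eq_or_lt with h | h
  · have : fb c r = fun _ => 0 := by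
      funext x
      unfold fb
      rw [← h]
      simp
    rw [this]
    exact LipschitzWith.const' 0
  · refine LipschitzWith.of_dist_le_mul fun x y => ?_
    unfold fb
    rw [NNReal.coe_one, one_mul, Real.dist_eq, ← mul_sub, abs_mul, abs_of_pos (by positivity)]
    have h1 := bl_lip.dist_le_mul ((36 / r) • (x - c)) ((36 / r) • (y - c))
    rw [NNReal.coe_one, one_mul, Real.dist_eq, dist_smul₀, dist_sub_right, Real.norm_eq_abs,
      abs_of_pos (show (0 : ℝ) < 36 / r by positivity)] at h1
    calc r / 36 * |bl ((36 / r) • (x - c)) - bl ((36 / r) • (y - c))|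
        ≤ r / 36 * (36 / r * dist x y) := by gcongr
      _ = dist x y := by field_simp

theorem fb_supp {c : E (n + 3)} {r : ℝ} (hr : 0 ≤ r) {x : E (n + 3)} (hx : r ≤ dist x c) :
    fb c r x = 0 := by
  unfold fb
  rcases hr.eq_or_lt with h | h
  · rw [← h]
    simp
  · rw [bl_supp, mul_zero]
    rw [norm_smul, Real.norm_eq_abs, abs_of_pos (by positivity), ← dist_eq_norm]
    calc (35 : ℝ) ≤ 36 / r * r := by field_simp; norm_num
      _ ≤ 36 / r * dist x c := by gcongr

theorem rb_supp {c : E (n + 3)} {r : ℝ} (hr : 0 ≤ r) {x : E (n + 3)} (hx : r ≤ dist x c) :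
    rb c r x = 0 := by
  unfold rb
  rcases hr.eq_or_lt with h | h
  · rw [← h]
    simp
  · rw [rh_supp, mul_zero]
    rw [norm_smul, Real.norm_eq_abs, abs_of_pos (by positivity), ← dist_eq_norm]
    calc (35 : ℝ) < 36 / r * r := by field_simp; norm_num
      _ ≤ 36 / r * dist x c := by gcongr

theorem rb_integrable (c : E (n + 3)) {r : ℝ} (hr : 0 ≤ r) : Integrable (rb c r) := by
  rcases hr.eq_or_lt with h | h
  · have : rb c r = fun _ => 0 := by
      funext x
      unfold rb
      rw [← h]
      simp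
    rw [this]
    exact integrable_zero _ _ _
  · exact (scale_integrable (r := r) (by positivity) (by field_simp) c rh_integrable).const_mul _

theorem rb_norm (c : E (n + 3)) {r : ℝ} (hr : 0 ≤ r) :
    ∫ x, |rb c r x| = (r / 36) ^ (n + 2) * ∫ x : E (n + 3), |rh x| := by
  rcases hr.eq_or_lt with h | h
  · have : rb c r = fun _ => 0 := by
      funext x
      unfold rb
      rw [← h]
      simp
    rw [this, ← h]
    simp
  · unfold rb
    have h1 : ∀ x : E (n + 3), |36 / r * rh ((36 / r) • (x - c))|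
        = 36 / r * |rh ((36 / r) • (x - c))| := by
      intro x
      rw [abs_mul, abs_of_pos (by positivity)]
    simp only [h1]
    rw [integral_const_mul, integral_sub_right_eq_self (fun x => |rh ((36 / r) • x)|) c,
      Measure.integral_comp_smul (μ := (volume : Measure (E (n + 3)))) (fun x => |rh x|) (36 / r)]
    simp only [finrank_euclideanSpace, Fintype.card_fin, smul_eq_mul]
    rw [abs_of_pos (by positivity), ← mul_assoc]
    congr 1
    rw [← inv_pow, inv_div, pow_succ (r / 36) (n + 2)]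
    field_simp

theorem fb_ineq {c : E (n + 3)} {r : ℝ} (hr : 0 < r) {v : E (n + 3) → ℝ}
    (hv : LipschitzOnWith 1 v (closedBall c r)) :
    ∫ x in ball c r, rb c r x * (v x - fb c r x)
      ≤ ∫ x in ball c r, (√(1 - ‖fderiv ℝ (fb c r) x‖ ^ 2) - √(1 - ‖fderiv ℝ v x‖ ^ 2)) := by
  obtain ⟨ψ0, hψ0, hEq⟩ := hv.extend_real
  set k := 36 / r with hk
  have hk0 : 0 < k := by positivity
  have hkr : k * r = 36 := by
    rw [hk]
    field_simp
  set ψ : E (n + 3) → ℝ := fun y => k * ψ0 (c + k⁻¹ • y) with hψ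
  have hψl : LipschitzWith 1 ψ := by
    refine LipschitzWith.of_dist_le_mul fun x y => ?_
    simp only [hψ]
    rw [NNReal.coe_one, one_mul, Real.dist_eq, ← mul_sub, abs_mul, abs_of_pos hk0]
    have h1 := hψ0.dist_le_mul (c + k⁻¹ • x) (c + k⁻¹ • y)
    rw [NNReal.coe_one, one_mul, Real.dist_eq, dist_add_left, dist_smul₀, Real.norm_eq_abs,
      abs_of_pos (show (0 : ℝ) < k⁻¹ by positivity)] at h1
    calc k * |ψ0 (c + k⁻¹ • x) - ψ0 (c + k⁻¹ • y)| ≤ k * (k⁻¹ * dist x y) := by gcongr
      _ = dist x y := by field_simp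
  have h := block_ineq hψl
  have hpos : 0 < |(k ^ (n + 3))⁻¹| := by positivity
  have h2 := mul_le_mul_of_nonneg_left h hpos.le
  rw [← scale_int hk0 hkr c, ← scale_int hk0 hkr c] at h2
  have hback : ∀ x : E (n + 3), c + k⁻¹ • (k • (x - c)) = x := by
    intro x
    rw [smul_smul, inv_mul_cancel₀ hk0.ne', one_smul]
    abel
  have e1 : ∫ x in ball c r, rb c r x * (v x - fb c r x)
      = ∫ x in ball c r, rh (k • (x - c)) * (ψ (k • (x - c)) - bl (k • (x - c))) := by
    refine setIntegral_congr_fun measurableSet_ball fun x hx => ?_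
    simp only [hψ]
    rw [hback x, ← hEq (ball_subset_closedBall hx)]
    unfold rb fb
    rw [← hk]
    have : r / 36 = k⁻¹ := by
      rw [hk]
      simp
    rw [this]
    field_simp
  have e2 : ∫ x in ball c r, (√(1 - ‖fderiv ℝ (fb c r) x‖ ^ 2) - √(1 - ‖fderiv ℝ v x‖ ^ 2))
      = ∫ x in ball c r, (√(1 - ‖fderiv ℝ bl (k • (x - c))‖ ^ 2)
          - √(1 - ‖fderiv ℝ ψ (k • (x - c))‖ ^ 2)) := by
    refine setIntegral_congr_ae measurableSet_ball ?_
    filter_upwards [hψ0.ae_differentiableAt] with x hx hxb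
    have f1 : fderiv ℝ (fb c r) x = fderiv ℝ bl (k • (x - c)) := by
      have g1 : HasFDerivAt (fun x : E (n + 3) => k • (x - c))
          (k • ContinuousLinearMap.id ℝ (E (n + 3))) x :=
        ((hasFDerivAt_id x).sub_const c).const_smul k
      have g2 := ((bl_hasFDeriv (k • (x - c))).comp x g1).const_mul (r / 36)
      have g3 : fderiv ℝ (fb c r) x = _ := g2.fderiv
      rw [g3, (bl_hasFDeriv (k • (x - c))).fderiv]
      ext w
      have : r / 36 = k⁻¹ := by
        rw [hk]
        simp
      simp [this]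
      rw [← mul_assoc, inv_mul_cancel₀ hk0.ne', one_mul]
    have f2 : fderiv ℝ v x = fderiv ℝ ψ (k • (x - c)) := by
      have g0 : fderiv ℝ v x = fderiv ℝ ψ0 x := by
        refine Filter.EventuallyEq.fderiv_eq ?_
        filter_upwards [isOpen_ball.mem_nhds hxb] with y hy
        exact hEq (ball_subset_closedBall hy)
      have g1 : HasFDerivAt (fun y : E (n + 3) => c + k⁻¹ • y)
          (k⁻¹ • ContinuousLinearMap.id ℝ (E (n + 3))) (k • (x - c)) :=
        ((hasFDerivAt_id _).const_smul k⁻¹).const_add c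
      have g2 : HasFDerivAt ψ0 (fderiv ℝ ψ0 x) (c + k⁻¹ • (k • (x - c))) := by
        rw [hback x]
        exact hx.hasFDerivAt
      have g3 := (g2.comp (k • (x - c)) g1).const_mul k
      have g4 : fderiv ℝ ψ (k • (x - c)) = _ := g3.fderiv
      rw [g0, g4]
      ext w
      simp
      rw [← mul_assoc, mul_inv_cancel₀ hk0.ne', one_mul]
    rw [f1, f2]
  rw [e1, e2]
  exact h2

end Pool.Agent.U562.LS
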