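import Pool.Agent.U562.LS.Three

/-!
# The dominating function
-/

set_option autoImplicit false

open MeasureTheory Metric Set Real Filter Topology
open scoped ENNReal ContDiff

namespace Pool.Agent.U562.LS

open Pool.Agent.U562.BI (E)

variable {n : ℕ}

theorem abs_rpow_intervalIntegrable {r : ℝ} (hr : -1 < r) {R : ℝ} (hR : 0 < R) :
    IntervalIntegrable (fun y : ℝ => |y| ^ r) volume (-R) R := by
  have h1 : IntervalIntegrable (fun y : ℝ => |y| ^ r) volume 0 R := by
    refine (intervalIntegral.intervalIntegrable_rpow' (a := 0) (b := R) hr).congr ?_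
    intro x hx
    rw [uIoc_of_le hR.le] at hx
    show x ^ r = |x| ^ r
    rw [abs_of_pos hx.1]
  have h2 : IntervalIntegrable (fun y : ℝ => |y| ^ r) volume (-R) 0 := by
    rw [IntervalIntegrable.iff_comp_neg]
    simp only [abs_neg, neg_neg, neg_zero]
    exact h1.symm
  exact h2.trans h1

theorem abs_rpow_indicator {r : ℝ} (hr : -1 < r) {R : ℝ} (hR : 0 < R) :
    Integrable (indicator (Icc (-R) R) fun y : ℝ => |y| ^ r) := by
  rw [integrable_indicator_iff measurableSet_Icc]
  have h := abs_rpow_intervalIntegrable hr hR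
  rw [intervalIntegrable_iff_integrableOn_Icc_of_le (by linarith)] at h
  exact h

/-- The one-dimensional factors. -/
noncomputable def fac (i : Fin (n + 3)) (y : ℝ) : ℝ :=
  if i = 1 ∨ i = 2 then indicator (Icc (-36) 36) (fun y : ℝ => |y| ^ (-(3 / 4) : ℝ)) y
  else indicator (Icc (-36) 36) (fun _ => (1 : ℝ)) y

theorem fac_integrable (i : Fin (n + 3)) : Integrable (fac i) := by
  unfold fac
  split_ifs
  · exact abs_rpow_indicator (by norm_num) (by norm_num)
  · rw [integrable_indicator_iff measurableSet_Icc]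
    exact integrableOn_const (by simp)

theorem prod_integrable : Integrable fun x : E (n + 3) => ∏ i, fac i (x i) := by
  have h := Integrable.fintype_prod (f := fun i : Fin (n + 3) => fac i) fun i => fac_integrable i
  have h2 := (PiLp.volume_preserving_ofLp (Fin (n + 3))).integrable_comp_of_integrable h
  exact h2

theorem fac_nonneg (i : Fin (n + 3)) (y : ℝ) : 0 ≤ fac i y := by
  unfold fac
  split_ifs
  · exact indicator_nonneg (fun y _ => Real.rpow_nonneg (abs_nonneg y) _) y
  · exact indicator_nonneg (fun y _ => zero_le_one) y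

theorem prod_lower {x : E (n + 3)} (hx : ‖x‖ ≤ 36) :
    ∏ i, fac i (x i) = |x 1| ^ (-(3 / 4) : ℝ) * |x 2| ^ (-(3 / 4) : ℝ) := by
  have hmem : ∀ i, x i ∈ Icc (-36 : ℝ) 36 := by
    intro i
    have h1 : ‖x i‖ ≤ ‖x‖ := PiLp.norm_apply_le x i
    rw [Real.norm_eq_abs] at h1
    exact abs_le.1 (h1.trans hx)
  have h12 : (1 : Fin (n + 3)) ≠ 2 := by
    intro h
    have h3 := congrArg Fin.val h
    simp [Fin.val_one, Fin.val_two] at h3
    rw [Nat.mod_eq_of_lt (show 2 < n + 3 by omega)] at h3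
    omega
  have h1 : ∀ i ∉ ({1, 2} : Finset (Fin (n + 3))), fac i (x i) = 1 := by
    intro i hi
    simp only [Finset.mem_insert, Finset.mem_singleton] at hi
    unfold fac
    rw [if_neg hi, indicator_of_mem (hmem i)]
  rw [← Finset.prod_subset (Finset.subset_univ {1, 2}) fun i _ hi => h1 i hi, Finset.prod_pair h12]
  unfold fac
  rw [if_pos (Or.inl rfl), if_pos (Or.inr rfl), indicator_of_mem (hmem 1), indicator_of_mem (hmem 2)]

theorem ae_coord_ne (i : Fin (n + 3)) : ∀ᵐ x : E (n + 3), x i ≠ 0 := by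
  have h : ∀ᵐ y : Fin (n + 3) → ℝ, y i ≠ 0 := by
    rw [volume_pi]
    exact Measure.ae_eval_ne (fun _ : Fin (n + 3) => (volume : Measure ℝ)) i 0
  exact (PiLp.volume_preserving_ofLp (Fin (n + 3))).quasiMeasurePreserving.ae h

theorem ss_lower (x : E (n + 3)) : |x 1| * |x 2| ≤ ss x := by
  have h1 : x 1 ^ 2 + x 2 ^ 2 ≤ ss x := by
    unfold ss
    have h2 : ({0, 1} : Finset (Fin (n + 2))) ⊆ Finset.univ := Finset.subset_univ _
    have h01 : (0 : Fin (n + 2)) ≠ 1 := by
      intro h
      have := congrArg Fin.val h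
      simp at this
    have h3 := Finset.sum_le_sum_of_subset_of_nonneg (f := fun i : Fin (n + 2) => x i.succ ^ 2) h2
      fun i _ _ => sq_nonneg _
    rw [Finset.sum_pair h01] at h3
    exact h3
  have h2 := sq_nonneg (|x 1| - |x 2|)
  have h3 := sq_abs (x 1)
  have h4 := sq_abs (x 2)
  nlinarith [mul_nonneg (abs_nonneg (x 1)) (abs_nonneg (x 2))]

theorem ss_pos_ae : ∀ᵐ x : E (n + 3), 0 < ss x := by
  filter_upwards [ae_coord_ne 1, ae_coord_ne 2] with x h1 h2
  have := ss_lower x
  have h3 := abs_pos.2 h1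
  have h4 := abs_pos.2 h2
  have := mul_pos h3 h4
  linarith

/-- The dominating function. -/
noncomputable def dom (x : E (n + 3)) : ℝ := dl ^ (-(3 / 4) : ℝ) * ∏ i, fac i (x i)

theorem dom_integrable : Integrable (dom : E (n + 3) → ℝ) := prod_integrable.const_mul _

theorem dom_nonneg (x : E (n + 3)) : 0 ≤ dom x :=
  mul_nonneg (Real.rpow_nonneg dl_pos.le _) (Finset.prod_nonneg fun i _ => fac_nonneg i _)

theorem dom_bound : ∀ᵐ x : E (n + 3), ‖x‖ ≤ 36 → (dl * ss x) ^ (-(3 / 4) : ℝ) ≤ dom x := by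
  filter_upwards [ae_coord_ne 1, ae_coord_ne 2] with x h1 h2 hx
  unfold dom
  rw [prod_lower hx, ← mul_assoc]
  have hd := dl_pos
  have h3 := abs_pos.2 h1
  have h4 := abs_pos.2 h2
  rw [← Real.mul_rpow hd.le h3.le, ← Real.mul_rpow (by positivity) h4.le]
  have h5 : dl * |x 1| * |x 2| ≤ dl * ss x := by
    rw [mul_assoc]
    exact mul_le_mul_of_nonneg_left (ss_lower x) hd.le
  exact Real.rpow_le_rpow_of_nonpos (by positivity) h5 (by norm_num)

/-- The source of the block. -/
noncomputable def rh (x : E (n + 3)) : ℝ := -dv (n + 2) 1 (x 0) (ss x)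

theorem dv_supp {lam : ℝ} {x : E (n + 3)} (h : 35 < ‖x‖) : dv (n + 2) lam (x 0) (ss x) = 0 := by
  apply dv_zero
  have h1 : 35 ^ 2 < ‖x‖ ^ 2 := by gcongr
  rw [norm_sq_eq] at h1
  rcases lt_or_ge 7 |x 0| with h2 | h2
  · exact Or.inr h2
  · left
    have h3 : |x 0| ^ 2 ≤ 7 ^ 2 := by gcongr
    rw [sq_abs] at h3
    unfold dl
    linarith

theorem dv_measurable (lam : ℝ) : Measurable fun x : E (n + 3) => dv (n + 2) lam (x 0) (ss x) := by
  have c0 : ∀ i, Measurable (fun x : E (n + 3) => x i) := fun i =>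
    (EuclideanSpace.proj i : E (n + 3) →L[ℝ] ℝ).continuous.measurable
  have cs : Measurable (ss : E (n + 3) → ℝ) := by
    unfold ss
    exact Finset.measurable_sum _ fun i _ => (c0 i.succ).pow_const 2
  have cU := UU_contDiff.continuous.measurable.comp (c0 0)
  have cU1 := U1_contDiff.continuous.measurable.comp (c0 0)
  have cU2 := U2_continuous.measurable.comp (c0 0)
  have cG := GG_contDiff.continuous.measurable.comp cs
  have cG1 := G1_contDiff.continuous.measurable.comp cs
  have cG2 := G2_continuous.measurable.comp cs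
  simp only [Function.comp_def] at cU cU1 cU2 cG cG1 cG2
  unfold dv N1 N2 Pt Ps SD PP
  fun_prop

/-- The uniform bound. -/
theorem dv_dom : ∃ C : ℝ, 0 < C ∧ ∀ᵐ x : E (n + 3), ∀ lam : ℝ, 0 ≤ lam → lam ≤ 1 →
    |dv (n + 2) lam (x 0) (ss x)| ≤ C * dom x := by
  obtain ⟨C, hC, h⟩ := dv_bound (k := n + 2) (by positivity)
  refine ⟨C, hC, ?_⟩
  filter_upwards [dom_bound, ss_pos_ae] with x hx hs lam hl hl1
  rcases le_or_gt ‖x‖ 35 with h1 | h1
  · refine (h lam (x 0) (ss x) hl hl1 hs).trans ?_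
    exact mul_le_mul_of_nonneg_left (hx (by linarith)) hC.le
  · rw [dv_supp h1, abs_zero]
    exact mul_nonneg hC.le (dom_nonneg x)

theorem rh_integrable : Integrable (rh : E (n + 3) → ℝ) := by
  obtain ⟨C, hC, h⟩ := dv_dom (n := n)
  refine Integrable.mono' (dom_integrable.const_mul C) (dv_measurable 1).neg.aestronglyMeasurable ?_
  filter_upwards [h] with x hx
  rw [Real.norm_eq_abs]
  unfold rh
  rw [abs_neg]
  exact hx 1 zero_le_one le_rfl

theorem rh_supp {x : E (n + 3)} (h : 35 < ‖x‖) : rh x = 0 := by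
  unfold rh
  rw [dv_supp h, neg_zero]

end Pool.Agent.U562.LS
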