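import Mathlib

/-!
# The one-dimensional profiles
-/

set_option autoImplicit false

open MeasureTheory Metric Set Real Filter Topology

namespace Pool.Agent.U562.LS

/-- A smooth even function vanishing exactly... on `[-1,1]` and equal to `1` for `t² ≥ 2`. -/
noncomputable def sg (t : ℝ) : ℝ := Real.smoothTransition (t ^ 2 - 1)

theorem sg_contDiff : ContDiff ℝ 2 sg := by
  unfold sg
  exact Real.smoothTransition.contDiff.comp (by fun_prop)

theorem sg_nonneg (t : ℝ) : 0 ≤ sg t := Real.smoothTransition.nonneg _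
theorem sg_le_one (t : ℝ) : sg t ≤ 1 := Real.smoothTransition.le_one _

theorem sg_zero {t : ℝ} (h : |t| ≤ 1) : sg t = 0 := by
  unfold sg
  apply Real.smoothTransition.zero_of_nonpos
  have := (sq_le_one_iff_abs_le_one t).2 h
  linarith

theorem sg_one {t : ℝ} (h : 2 ≤ |t|) : sg t = 1 := by
  unfold sg
  apply Real.smoothTransition.one_of_one_le
  have : 2 ^ 2 ≤ |t| ^ 2 := by gcongr
  rw [sq_abs] at this
  linarith

theorem sg_even (t : ℝ) : sg (-t) = sg t := by
  unfold sg
  rw [neg_sq]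

theorem sg_one' {t : ℝ} (h : 2 ≤ t ^ 2) : sg t = 1 := by
  unfold sg
  apply Real.smoothTransition.one_of_one_le
  linarith

theorem sg_hasDeriv (t : ℝ) : HasDerivAt sg (deriv sg t) t :=
  ((sg_contDiff.differentiable (by norm_num)) t).hasDerivAt

theorem dsg_continuous : Continuous (deriv sg) := sg_contDiff.continuous_deriv (by norm_num)

theorem dsg_zero {t : ℝ} (h : 2 ≤ |t|) : deriv sg t = 0 := by
  have h1 : sg =ᶠ[𝓝 t] fun _ => 1 := by
    have h2 : ∀ᶠ y in 𝓝 t, 2 < y ^ 2 := by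
      have hc : Continuous fun y : ℝ => y ^ 2 := by fun_prop
      refine hc.continuousAt.eventually (lt_mem_nhds ?_)
      have : 2 ^ 2 ≤ |t| ^ 2 := by gcongr
      rw [sq_abs] at this
      linarith
    filter_upwards [h2] with y hy
    exact sg_one' hy.le
  rw [h1.deriv_eq]
  simp

theorem dsg_bound : ∃ C : ℝ, 0 < C ∧ ∀ t, |deriv sg t| ≤ C := by
  obtain ⟨C, hC⟩ := (isCompact_Icc (a := (-2 : ℝ)) (b := 2)).exists_bound_of_continuousOn
    dsg_continuous.continuousOn
  refine ⟨|C| + 1, by positivity, fun t => ?_⟩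
  rcases le_total |t| 2 with h | h
  · have := hC t (abs_le.1 h)
    rw [Real.norm_eq_abs] at this
    have := le_abs_self C
    linarith
  · rw [dsg_zero h, abs_zero]
    positivity

/-- The derivative of the profile near the segment. -/
noncomputable def ch (t : ℝ) : ℝ := 1 - sg t ^ 4
noncomputable def ch1 (t : ℝ) : ℝ := -(4 * sg t ^ 3 * deriv sg t)

theorem ch_hasDeriv (t : ℝ) : HasDerivAt ch (ch1 t) t := by
  have := ((sg_hasDeriv t).pow 4).const_sub 1
  refine this.congr_deriv ?_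
  unfold ch1
  norm_num

theorem ch1_continuous : Continuous ch1 := by
  unfold ch1
  exact ((continuous_const.mul (sg_contDiff.continuous.pow 3)).mul dsg_continuous).neg

theorem ch_continuous : Continuous ch := by
  unfold ch
  exact continuous_const.sub (sg_contDiff.continuous.pow 4)

theorem ch_nonneg (t : ℝ) : 0 ≤ ch t := by
  unfold ch
  have := pow_le_one₀ (n := 4) (sg_nonneg t) (sg_le_one t)
  linarith

theorem ch_le_one (t : ℝ) : ch t ≤ 1 := by
  unfold ch
  have := pow_nonneg (sg_nonneg t) 4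
  linarith

theorem ch_one {t : ℝ} (h : |t| ≤ 1) : ch t = 1 := by
  unfold ch
  rw [sg_zero h]
  norm_num

theorem ch_zero {t : ℝ} (h : 2 ≤ |t|) : ch t = 0 := by
  unfold ch
  rw [sg_one h]
  norm_num

theorem ch1_zero {t : ℝ} (h : 2 ≤ |t|) : ch1 t = 0 := by
  unfold ch1
  rw [dsg_zero h]
  ring

theorem ch_even (t : ℝ) : ch (-t) = ch t := by
  unfold ch
  rw [sg_even]

/-- The primitive of `ch`. -/
noncomputable def XX (t : ℝ) : ℝ := ∫ τ in (0 : ℝ)..t, ch τ

theorem XX_hasDeriv (t : ℝ) : HasDerivAt XX (ch t) t :=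
  intervalIntegral.integral_hasDerivAt_right (ch_continuous.intervalIntegrable 0 t)
    (ch_continuous.stronglyMeasurableAtFilter _ _) ch_continuous.continuousAt

theorem XX_odd (t : ℝ) : XX (-t) = -XX t := by
  unfold XX
  have h := intervalIntegral.integral_comp_neg (f := ch) (a := 0) (b := t)
  simp only [neg_zero] at h
  rw [intervalIntegral.integral_symm, ← h]
  congr 1
  exact intervalIntegral.integral_congr fun x _ => ch_even x

theorem XX_id {t : ℝ} (h : |t| ≤ 1) : XX t = t := by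
  unfold XX
  have : ∫ τ in (0 : ℝ)..t, ch τ = ∫ τ in (0 : ℝ)..t, (1 : ℝ) := by
    refine intervalIntegral.integral_congr fun x hx => ch_one ?_
    rw [abs_le] at h ⊢
    rcases le_total 0 t with h0 | h0
    · rw [uIcc_of_le h0] at hx
      constructor <;> linarith [hx.1, hx.2]
    · rw [uIcc_of_ge h0] at hx
      constructor <;> linarith [hx.1, hx.2]
  rw [this]
  simp

theorem XX_const {t : ℝ} (h : 2 ≤ t) : XX t = XX 2 := by
  have h1 : (∫ τ in (0 : ℝ)..2, ch τ) + ∫ τ in (2 : ℝ)..t, ch τ = ∫ τ in (0 : ℝ)..t, ch τ :=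
    intervalIntegral.integral_add_adjacent_intervals (ch_continuous.intervalIntegrable _ _)
      (ch_continuous.intervalIntegrable _ _)
  have h2 : ∫ τ in (2 : ℝ)..t, ch τ = ∫ τ in (2 : ℝ)..t, (0 : ℝ) := by
    refine intervalIntegral.integral_congr fun x hx => ch_zero ?_
    rw [uIcc_of_le h] at hx
    exact hx.1.trans (le_abs_self x)
  rw [h2] at h1
  unfold XX
  simp at h1
  linarith

theorem XX_neg_const {t : ℝ} (h : t ≤ -2) : XX t = -XX 2 := by
  have h1 : t = -(-t) := by ring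
  rw [h1, XX_odd, XX_const (by linarith)]

theorem XX_two_nonneg : 0 ≤ XX 2 := by
  unfold XX
  exact intervalIntegral.integral_nonneg (by norm_num) fun t _ => ch_nonneg t

theorem XX_mono : Monotone XX := by
  apply monotone_of_deriv_nonneg (fun t => (XX_hasDeriv t).differentiableAt)
  intro t
  rw [(XX_hasDeriv t).deriv]
  exact ch_nonneg t

theorem XX_two_le : XX 2 ≤ 2 := by
  unfold XX
  have : ∫ τ in (0 : ℝ)..2, ch τ ≤ ∫ τ in (0 : ℝ)..2, (1 : ℝ) :=
    intervalIntegral.integral_mono_on (by norm_num) (ch_continuous.intervalIntegrable _ _)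
      (by simp) fun t _ => ch_le_one t
  simpa using this

theorem XX_abs (t : ℝ) : |XX t| ≤ 2 := by
  have h2 := XX_two_le
  rw [abs_le]
  constructor
  · rcases le_total t (-2) with h | h
    · rw [XX_neg_const h]
      linarith
    · have := XX_mono h
      rw [XX_neg_const le_rfl] at this
      linarith
  · rcases le_total 2 t with h | h
    · rw [XX_const h]
      linarith
    · have := XX_mono h
      linarith

/-- The profile along the axis. -/
noncomputable def UU (t : ℝ) : ℝ := XX t - XX (t - 5) / 2 - XX (t + 5) / 2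
noncomputable def U1 (t : ℝ) : ℝ := ch t - ch (t - 5) / 2 - ch (t + 5) / 2
noncomputable def U2 (t : ℝ) : ℝ := ch1 t - ch1 (t - 5) / 2 - ch1 (t + 5) / 2

theorem UU_hasDeriv (t : ℝ) : HasDerivAt UU (U1 t) t :=
  ((XX_hasDeriv t).sub (((XX_hasDeriv (t - 5)).comp_sub_const t 5).div_const 2)).sub
    (((XX_hasDeriv (t + 5)).comp_add_const t 5).div_const 2)

theorem U1_hasDeriv (t : ℝ) : HasDerivAt U1 (U2 t) t :=
  ((ch_hasDeriv t).sub (((ch_hasDeriv (t - 5)).comp_sub_const t 5).div_const 2)).sub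
    (((ch_hasDeriv (t + 5)).comp_add_const t 5).div_const 2)

theorem U2_continuous : Continuous U2 := by
  unfold U2
  exact (ch1_continuous.sub ((ch1_continuous.comp (by fun_prop)).div_const 2)).sub
    ((ch1_continuous.comp (by fun_prop)).div_const 2)

theorem U1_contDiff : ContDiff ℝ 1 U1 := by
  rw [contDiff_one_iff_deriv]
  refine ⟨fun t => (U1_hasDeriv t).differentiableAt, ?_⟩
  have : deriv U1 = U2 := funext fun t => (U1_hasDeriv t).deriv
  rw [this]
  exact U2_continuous

theorem UU_contDiff : ContDiff ℝ 1 UU := by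
  rw [contDiff_one_iff_deriv]
  refine ⟨fun t => (UU_hasDeriv t).differentiableAt, ?_⟩
  have : deriv UU = U1 := funext fun t => (UU_hasDeriv t).deriv
  rw [this]
  exact U1_contDiff.continuous

theorem UU_id {t : ℝ} (h : |t| ≤ 1) : UU t = t := by
  have h' := abs_le.1 h
  unfold UU
  rw [XX_id h, XX_neg_const (by linarith : t - 5 ≤ -2), XX_const (by linarith : 2 ≤ t + 5)]
  ring

theorem UU_zero {t : ℝ} (h : 7 ≤ |t|) : UU t = 0 := by
  unfold UU
  rcases le_abs.1 h with h1 | h1
  · rw [XX_const (by linarith : 2 ≤ t), XX_const (by linarith : 2 ≤ t - 5),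
      XX_const (by linarith : 2 ≤ t + 5)]
    ring
  · rw [XX_neg_const (by linarith : t ≤ -2), XX_neg_const (by linarith : t - 5 ≤ -2),
      XX_neg_const (by linarith : t + 5 ≤ -2)]
    ring

theorem UU_abs (t : ℝ) : |UU t| ≤ 4 := by
  unfold UU
  have h1 := abs_le.1 (XX_abs t)
  have h2 := abs_le.1 (XX_abs (t - 5))
  have h3 := abs_le.1 (XX_abs (t + 5))
  rw [abs_le]
  constructor <;> linarith

theorem U1_near {t : ℝ} (h : |t| ≤ 2) : U1 t = ch t ∧ U2 t = ch1 t := by
  have h' := abs_le.1 h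
  have h1 : 2 ≤ |t - 5| := by
    rw [le_abs]
    right
    linarith
  have h2 : 2 ≤ |t + 5| := by
    rw [le_abs]
    left
    linarith
  unfold U1 U2
  rw [ch_zero h1, ch_zero h2, ch1_zero h1, ch1_zero h2]
  constructor <;> ring

theorem U1_far {t : ℝ} (h : 2 ≤ |t|) : |U1 t| ≤ 1 / 2 := by
  unfold U1
  rw [ch_zero h]
  have a1 := ch_nonneg (t - 5)
  have a2 := ch_le_one (t - 5)
  have a3 := ch_nonneg (t + 5)
  have a4 := ch_le_one (t + 5)
  rcases le_abs.1 h with h1 | h1
  · rw [ch_zero (t := t + 5) (by rw [le_abs]; left; linarith), abs_le]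
    constructor <;> linarith
  · rw [ch_zero (t := t - 5) (by rw [le_abs]; right; linarith), abs_le]
    constructor <;> linarith

theorem U1_abs (t : ℝ) : |U1 t| ≤ 1 := by
  rcases le_total |t| 2 with h | h
  · rw [(U1_near h).1, abs_of_nonneg (ch_nonneg t)]
    exact ch_le_one t
  · have := U1_far h
    linarith

/-- The defect `1 - U'²`. -/
noncomputable def yy (t : ℝ) : ℝ := 1 - U1 t ^ 2

theorem yy_nonneg (t : ℝ) : 0 ≤ yy t := by
  unfold yy
  have := (sq_le_one_iff_abs_le_one (U1 t)).2 (U1_abs t)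
  linarith

theorem yy_le_one (t : ℝ) : yy t ≤ 1 := by
  unfold yy
  have := sq_nonneg (U1 t)
  linarith

theorem U2_bound : ∃ C : ℝ, 0 < C ∧ ∀ t, |U2 t| ≤ C * yy t ^ (3 / 4 : ℝ) := by
  obtain ⟨C, hC, hb⟩ := dsg_bound
  have hch : ∀ t, |ch1 t| ≤ 4 * C * sg t ^ 3 := by
    intro t
    unfold ch1
    rw [abs_neg, abs_mul, abs_mul, abs_of_nonneg (pow_nonneg (sg_nonneg t) 3),
      abs_of_pos (by norm_num : (0 : ℝ) < 4)]
    have h1 := hb t
    have h2 := pow_nonneg (sg_nonneg t) 3
    nlinarith [mul_le_mul_of_nonneg_left h1 h2]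
  have hch' : ∀ t, |ch1 t| ≤ 4 * C := by
    intro t
    refine (hch t).trans ?_
    have := pow_le_one₀ (n := 3) (sg_nonneg t) (sg_le_one t)
    nlinarith
  refine ⟨12 * C, by positivity, fun t => ?_⟩
  rcases le_total |t| 2 with h | h
  · obtain ⟨h1, h2⟩ := U1_near h
    have h3 : sg t ^ 4 ≤ yy t := by
      unfold yy
      rw [h1]
      have a1 := ch_nonneg t
      have a2 := ch_le_one t
      have a3 : ch t = 1 - sg t ^ 4 := rfl
      nlinarith
    have h4 : sg t ^ 3 ≤ yy t ^ (3 / 4 : ℝ) := by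
      have h5 : sg t ^ 3 = (sg t ^ 4) ^ (3 / 4 : ℝ) := by
        rw [← Real.rpow_natCast (sg t) 4, ← Real.rpow_mul (sg_nonneg t), ← Real.rpow_natCast]
        norm_num
      rw [h5]
      exact Real.rpow_le_rpow (pow_nonneg (sg_nonneg t) 4) h3 (by norm_num)
    rw [h2]
    refine (hch t).trans ?_
    have h6 := Real.rpow_nonneg (yy_nonneg t) (3 / 4 : ℝ)
    nlinarith
  · have h1 := U1_far h
    have h2 : 3 / 4 ≤ yy t := by
      unfold yy
      have : U1 t ^ 2 ≤ (1 / 2) ^ 2 := by
        rw [← sq_abs]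
        gcongr
      linarith
    have h3 : 3 / 4 ≤ yy t ^ (3 / 4 : ℝ) := by
      have h4 : yy t ^ (1 : ℝ) ≤ yy t ^ (3 / 4 : ℝ) :=
        Real.rpow_le_rpow_of_exponent_ge (by linarith) (yy_le_one t) (by norm_num)
      rw [Real.rpow_one] at h4
      linarith
    unfold U2
    have a1 := abs_le.1 (hch' (t - 5))
    have a2 := abs_le.1 (hch' (t + 5))
    have a3 : ch1 t = 0 := ch1_zero h
    rw [a3]
    have h5 : |0 - ch1 (t - 5) / 2 - ch1 (t + 5) / 2| ≤ 4 * C := by
      rw [abs_le]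
      constructor <;> linarith
    nlinarith

theorem U2_bounded : ∃ C : ℝ, 0 < C ∧ ∀ t, |U2 t| ≤ C := by
  obtain ⟨C, hC, h⟩ := U2_bound
  refine ⟨C, hC, fun t => (h t).trans ?_⟩
  have := Real.rpow_le_one (yy_nonneg t) (yy_le_one t) (by norm_num : (0 : ℝ) ≤ 3 / 4)
  nlinarith

/-! ### The transversal profile -/

/-- The scale of the transversal profile. -/
noncomputable def dl : ℝ := 1 / 1152

theorem dl_pos : 0 < dl := by unfold dl; norm_num

noncomputable def GG (s : ℝ) : ℝ := max (1 - dl * s) 0 ^ 3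
noncomputable def G1 (s : ℝ) : ℝ := -(3 * dl) * max (1 - dl * s) 0 ^ 2
noncomputable def G2 (s : ℝ) : ℝ := 6 * dl ^ 2 * max (1 - dl * s) 0

theorem hasDeriv_max_pow {n : ℕ} (x : ℝ) :
    HasDerivAt (fun y : ℝ => max y 0 ^ (n + 2)) ((n + 2) * max x 0 ^ (n + 1)) x := by
  rcases lt_trichotomy x 0 with h | h | h
  · have h1 : (fun y : ℝ => max y 0 ^ (n + 2)) =ᶠ[𝓝 x] fun _ => 0 := by
      filter_upwards [gt_mem_nhds h] with y hy
      rw [max_eq_right hy.le]
      simp
    rw [max_eq_right h.le]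
    simpa using (hasDerivAt_const x (0 : ℝ)).congr_of_eventuallyEq h1
  · subst h
    rw [max_self, zero_pow (by omega), mul_zero]
    rw [hasDerivAt_iff_isLittleO]
    simp only [max_self, smul_zero, sub_zero]
    rw [zero_pow (by omega)]
    simp only [sub_zero]
    have h1 : (fun y : ℝ => max y 0 ^ (n + 2)) =O[𝓝 0] fun y => y ^ (n + 2) := by
      refine Asymptotics.IsBigO.of_bound 1 (Eventually.of_forall fun y => ?_)
      rw [one_mul, norm_pow, norm_pow]
      gcongr
      rw [Real.norm_eq_abs, Real.norm_eq_abs]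
      rcases le_total y 0 with h | h
      · rw [max_eq_right h, abs_zero]
        exact abs_nonneg y
      · rw [max_eq_left h]
    refine h1.trans_isLittleO ?_
    have := Asymptotics.isLittleO_pow_id (𝕜 := ℝ) (n := n + 2) (by omega)
    exact this
  · have h1 : (fun y : ℝ => max y 0 ^ (n + 2)) =ᶠ[𝓝 x] fun y => y ^ (n + 2) := by
      filter_upwards [lt_mem_nhds h] with y hy
      rw [max_eq_left hy.le]
    rw [max_eq_left h.le]
    have := (hasDerivAt_pow (n + 2) x).congr_of_eventuallyEq h1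
    refine this.congr_deriv ?_
    push_cast
    norm_num

theorem GG_hasDeriv (s : ℝ) : HasDerivAt GG (G1 s) s := by
  have h1 : HasDerivAt (fun s : ℝ => 1 - dl * s) (-dl) s := by
    have := ((hasDerivAt_id s).const_mul dl).const_sub 1
    simpa using this
  have h2 := (hasDeriv_max_pow (n := 1) (1 - dl * s)).comp s h1
  refine h2.congr_deriv ?_
  unfold G1
  norm_num
  ring

theorem G1_hasDeriv (s : ℝ) : HasDerivAt G1 (G2 s) s := by
  have h1 : HasDerivAt (fun s : ℝ => 1 - dl * s) (-dl) s := by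
    have := ((hasDerivAt_id s).const_mul dl).const_sub 1
    simpa using this
  have h2 := ((hasDeriv_max_pow (n := 0) (1 - dl * s)).comp s h1).const_mul (-(3 * dl))
  refine h2.congr_deriv ?_
  unfold G2
  norm_num
  ring

theorem G2_continuous : Continuous G2 := by
  unfold G2
  fun_prop

theorem G1_contDiff : ContDiff ℝ 1 G1 := by
  rw [contDiff_one_iff_deriv]
  refine ⟨fun t => (G1_hasDeriv t).differentiableAt, ?_⟩
  have : deriv G1 = G2 := funext fun t => (G1_hasDeriv t).deriv
  rw [this]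
  exact G2_continuous

theorem GG_contDiff : ContDiff ℝ 1 GG := by
  rw [contDiff_one_iff_deriv]
  refine ⟨fun t => (GG_hasDeriv t).differentiableAt, ?_⟩
  have : deriv GG = G1 := funext fun t => (GG_hasDeriv t).deriv
  rw [this]
  exact G1_contDiff.continuous

theorem GG_zero {s : ℝ} (h : 1 ≤ dl * s) : GG s = 0 ∧ G1 s = 0 ∧ G2 s = 0 := by
  unfold GG G1 G2
  rw [max_eq_right (by linarith)]
  norm_num

theorem GG_at_zero : GG 0 = 1 := by
  unfold GG
  norm_num

theorem GG_bounds {s : ℝ} (h : 0 ≤ s) : 0 ≤ GG s ∧ GG s ≤ 1 ∧ |G1 s| ≤ 3 * dl ∧ |G2 s| ≤ 6 * dl ^ 2 := by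
  have hd := dl_pos
  have h0 : 0 ≤ max (1 - dl * s) 0 := le_max_right _ _
  have h1 : max (1 - dl * s) 0 ≤ 1 := max_le (by nlinarith) zero_le_one
  unfold GG G1 G2
  refine ⟨by positivity, pow_le_one₀ h0 h1, ?_, ?_⟩
  · rw [abs_mul, abs_neg, abs_of_pos (by positivity : 0 < 3 * dl),
      abs_of_nonneg (by positivity : 0 ≤ max (1 - dl * s) 0 ^ 2)]
    have := pow_le_one₀ (n := 2) h0 h1
    nlinarith
  · rw [abs_mul, abs_of_pos (by positivity : 0 < 6 * dl ^ 2), abs_of_nonneg h0]
    have : 0 < 6 * dl ^ 2 := by positivity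
    nlinarith

/-- The function `|Du|²` in terms of `t` and `s`. -/
noncomputable def PP (t s : ℝ) : ℝ := U1 t ^ 2 * GG s ^ 2 + 4 * s * UU t ^ 2 * G1 s ^ 2

theorem PP_nonneg {t s : ℝ} (hs : 0 ≤ s) : 0 ≤ PP t s := by
  unfold PP
  positivity

/-- The main lower bound for `1 - |Du|²`. -/
theorem one_sub_PP {t s : ℝ} (hs : 0 ≤ s) :
    yy t / 2 ≤ 1 - PP t s ∧ min (dl * s) 1 / 2 ≤ 1 - PP t s := by
  have hd := dl_pos
  have hy0 := yy_nonneg t
  have hy1 := yy_le_one t
  rcases le_total 1 (dl * s) with h | h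
  · obtain ⟨h1, h2, h3⟩ := GG_zero h
    have : PP t s = 0 := by
      unfold PP
      rw [h1, h2]
      ring
    rw [this, min_eq_right h]
    constructor <;> linarith
  · rw [min_eq_left h]
    set a := 1 - dl * s with ha
    have ha0 : 0 ≤ a := by linarith
    have ha1 : a ≤ 1 := by
      have : 0 ≤ dl * s := by positivity
      linarith
    have hG : GG s = a ^ 3 := by
      unfold GG
      rw [max_eq_left (by linarith)]
    have hG1 : G1 s = -(3 * dl) * a ^ 2 := by
      unfold G1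
      rw [max_eq_left (by linarith)]
    have hU : UU t ^ 2 ≤ 16 := by
      have := UU_abs t
      have h2 : |UU t| ^ 2 ≤ 4 ^ 2 := by gcongr
      rw [sq_abs] at h2
      linarith
    have e1 : U1 t ^ 2 = 1 - yy t := by
      unfold yy
      ring
    have hdl : dl = 1 / 1152 := rfl
    have hP : PP t s = (1 - yy t) * a ^ 6 + 36 * dl * (dl * s) * UU t ^ 2 * a ^ 4 := by
      unfold PP
      rw [hG, hG1, e1]
      ring
    have hs1 : dl * s = 1 - a := by rw [ha]; ring
    have h6 : a ^ 4 ≤ 1 := pow_le_one₀ ha0 ha1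
    have h7 : 0 ≤ a ^ 4 := by positivity
    have h8 : a ^ 6 ≤ a := by
      have : a ^ 5 ≤ 1 := pow_le_one₀ ha0 ha1
      nlinarith
    have h9 : 0 ≤ a ^ 6 := by positivity
    have h10 : 36 * dl * (dl * s) * UU t ^ 2 * a ^ 4 ≤ (1 - a) / 2 := by
      rw [hs1]
      have h11 : UU t ^ 2 * a ^ 4 ≤ 16 * 1 := by gcongr
      have h12 : 0 ≤ 36 * dl * (1 - a) := by
        have : 0 ≤ 1 - a := by linarith
        positivity
      calc 36 * dl * (1 - a) * UU t ^ 2 * a ^ 4 = 36 * dl * (1 - a) * (UU t ^ 2 * a ^ 4) := by ring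
        _ ≤ 36 * dl * (1 - a) * (16 * 1) := mul_le_mul_of_nonneg_left h11 h12
        _ = (1 - a) / 2 := by rw [hdl]; ring
    rw [hP, hs1]
    have h13 : 0 ≤ yy t * a ^ 6 := by positivity
    constructor
    · -- `1 - (1-y) a^6 - (1-a)/2 ≥ y/2`
      nlinarith [mul_nonneg hy0 (sub_nonneg.2 ha1), mul_nonneg hy0 h9,
        mul_le_mul_of_nonneg_left h8 hy0, mul_le_mul_of_nonneg_left h8 (sub_nonneg.2 hy1)]
    · nlinarith

theorem PP_le_one {t s : ℝ} (hs : 0 ≤ s) : PP t s ≤ 1 := by
  have := (one_sub_PP (t := t) hs).1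
  have := yy_nonneg t
  linarith

theorem PP_lt_one {t s : ℝ} (hs : 0 < s) : PP t s < 1 := by
  have h := (one_sub_PP (t := t) hs.le).2
  have hd := dl_pos
  have : 0 < min (dl * s) 1 := lt_min (by positivity) one_pos
  linarith

end Pool.Agent.U562.LS
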