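import Pool.Agent.U562.LS.Six
import Pool.Agent.U562.BI.Energy

/-!
# The superposition of the blocks
-/

set_option autoImplicit false

open MeasureTheory Metric Set Real Filter Topology
open scoped ENNReal

namespace Pool.Agent.U562.LS

open Pool.Agent.U562.BI (E)

/-- The derivative of a Lipschitz function vanishes almost everywhere on the zero set. -/
theorem fderiv_zero_ae {m : ℕ} [Nontrivial (E m)] {f : E m → ℝ} {C : NNReal}
    (hf : LipschitzWith C f) : ∀ᵐ x, f x = 0 → fderiv ℝ f x = 0 := by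
  obtain ⟨e, he⟩ := exists_ne (0 : E m)
  set s : Set (E m) := {x | f x = 0 ∧ DifferentiableAt ℝ f x} with hs
  have hsm : MeasurableSet s :=
    (hf.continuous.measurable (measurableSet_singleton 0)).inter
      (measurableSet_of_differentiableAt ℝ f)
  set F : E m → E m := fun x => f x • e with hF
  have hA : ApproximatesLinearOn F (0 : E m →L[ℝ] E m) s 0 := by
    intro x hx y hy
    simp only [hF]
    rw [hx.1, hy.1]
    simp
  have h := hA.norm_fderiv_sub_le (μ := (volume : Measure (E m))) hsm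
    (fun x => (fderiv ℝ f x).smulRight e) (fun x hx =>
      (hx.2.hasFDerivAt.smul_const e).hasFDerivWithinAt)
  rw [ae_restrict_iff' hsm] at h
  filter_upwards [h, hf.ae_differentiableAt] with x hx hd h0
  have h1 := hx ⟨h0, hd⟩
  rw [sub_zero, nonpos_iff_eq_zero, nnnorm_eq_zero] at h1
  ext w
  have h2 := congrArg (fun L : E m →L[ℝ] E m => L w) h1
  simp only [ContinuousLinearMap.smulRight_apply, ContinuousLinearMap.zero_apply, smul_eq_zero] at h2
  simpa using h2.resolve_right he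

variable {n : ℕ}

section sup

variable {Ω : Set (E (n + 3))} {ε : ℕ → ℝ}

/-- The centres. -/
noncomputable def qq (n : ℕ) : ℕ → E (n + 3) := TopologicalSpace.denseSeq (E (n + 3))

variable (Ω ε)

noncomputable def uu (x : E (n + 3)) : ℝ := ∑' k, fb (qq n k) (rr Ω (qq n) ε k) x
noncomputable def rho (x : E (n + 3)) : ℝ := ∑' k, rb (qq n k) (rr Ω (qq n) ε k) x

/-- The union of the balls. -/
def UB : Set (E (n + 3)) := ⋃ k, ball (qq n k) (rr Ω (qq n) ε k)

variable {Ω ε}

theorem mem_ball_unique (hε : ∀ k, 0 < ε k) {x : E (n + 3)} {j k : ℕ} (hjk : j ≠ k)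
    (hk : x ∈ ball (qq n k) (rr Ω (qq n) ε k)) : rr Ω (qq n) ε j ≤ dist x (qq n j) := by
  by_contra h
  rw [not_le] at h
  exact Set.disjoint_left.1 (b_disj (Ω := Ω) (q := qq n) hε hjk) (mem_ball.2 h) hk

theorem uu_ball (hε : ∀ k, 0 < ε k) {x : E (n + 3)} {k : ℕ}
    (hk : x ∈ ball (qq n k) (rr Ω (qq n) ε k)) : uu Ω ε x = fb (qq n k) (rr Ω (qq n) ε k) x :=
  tsum_eq_single k fun _ hj => fb_supp (rr_nonneg hε _) (mem_ball_unique hε hj hk)

theorem rho_ball (hε : ∀ k, 0 < ε k) {x : E (n + 3)} {k : ℕ}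
    (hk : x ∈ ball (qq n k) (rr Ω (qq n) ε k)) : rho Ω ε x = rb (qq n k) (rr Ω (qq n) ε k) x :=
  tsum_eq_single k fun _ hj => rb_supp (rr_nonneg hε _) (mem_ball_unique hε hj hk)

theorem uu_out (hε : ∀ k, 0 < ε k) {x : E (n + 3)} (hx : x ∉ UB Ω ε) : uu Ω ε x = 0 := by
  unfold uu
  have : ∀ k, fb (qq n k) (rr Ω (qq n) ε k) x = 0 := by
    intro k
    refine fb_supp (rr_nonneg hε k) ?_
    by_contra h
    rw [not_le] at h
    exact hx (mem_iUnion.2 ⟨k, mem_ball.2 h⟩)
  simp [this]

theorem rho_out (hε : ∀ k, 0 < ε k) {x : E (n + 3)} (hx : x ∉ UB Ω ε) : rho Ω ε x = 0 := by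
  unfold rho
  have : ∀ k, rb (qq n k) (rr Ω (qq n) ε k) x = 0 := by
    intro k
    refine rb_supp (rr_nonneg hε k) ?_
    by_contra h
    rw [not_le] at h
    exact hx (mem_iUnion.2 ⟨k, mem_ball.2 h⟩)
  simp [this]

theorem rr_pos_of_mem (hε : ∀ k, 0 < ε k) {x : E (n + 3)} {k : ℕ}
    (hk : x ∈ ball (qq n k) (rr Ω (qq n) ε k)) : 0 < rr Ω (qq n) ε k := by
  rw [mem_ball] at hk
  exact dist_nonneg.trans_lt hk

theorem UB_subset (hε : ∀ k, 0 < ε k) : UB Ω ε ⊆ Ω := by
  intro x hx
  obtain ⟨k, hk⟩ := mem_iUnion.1 hx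
  exact cb_subset (rr_pos_of_mem hε hk) (ball_subset_closedBall hk)

theorem UB_open : IsOpen (UB Ω ε) := isOpen_iUnion fun _ => isOpen_ball

/-- Crossing the sphere. -/
theorem crossing {m : ℕ} {x y c : E m} {r : ℝ} (hx : dist x c < r) (hy : r ≤ dist y c) :
    ∃ z, dist z c = r ∧ dist x z + dist z y = dist x y := by
  set g : ℝ → ℝ := fun t => dist (x + t • (y - x)) c with hg
  have hgc : ContinuousOn g (Icc 0 1) := by
    apply Continuous.continuousOn
    simp only [hg]
    fun_prop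
  have h0 : g 0 = dist x c := by simp [hg]
  have h1 : g 1 = dist y c := by simp [hg]
  obtain ⟨t, ht, hgt⟩ := intermediate_value_Icc zero_le_one hgc
    (show r ∈ Icc (g 0) (g 1) from ⟨by rw [h0]; exact hx.le, by rw [h1]; exact hy⟩)
  refine ⟨x + t • (y - x), hgt, ?_⟩
  have e1 : dist x (x + t • (y - x)) = t * dist x y := by
    rw [dist_comm, dist_eq_norm, add_sub_cancel_left, norm_smul, Real.norm_eq_abs,
      abs_of_nonneg ht.1, dist_comm x y, dist_eq_norm]
  have e2 : dist (x + t • (y - x)) y = (1 - t) * dist x y := by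
    have : x + t • (y - x) - y = -((1 - t) • (y - x)) := by
      rw [sub_smul, one_smul]
      abel
    rw [dist_eq_norm, this, norm_neg, norm_smul, Real.norm_eq_abs,
      abs_of_nonneg (by linarith [ht.2]), dist_comm x y, dist_eq_norm]
  rw [e1, e2]
  ring

theorem uu_lip (hε : ∀ k, 0 < ε k) : LipschitzWith 1 (uu Ω ε : E (n + 3) → ℝ) := by
  have hout : ∀ x y : E (n + 3), y ∉ UB Ω ε → |uu Ω ε x| ≤ dist x y := by
    intro x y hy
    by_cases hx : x ∈ UB Ω ε
    · obtain ⟨k, hk⟩ := mem_iUnion.1 hx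
      rw [uu_ball hε hk]
      have h1 : fb (qq n k) (rr Ω (qq n) ε k) y = 0 := by
        refine fb_supp (rr_nonneg hε k) ?_
        by_contra h
        rw [not_le] at h
        exact hy (mem_iUnion.2 ⟨k, mem_ball.2 h⟩)
      have h2 := (fb_lip (qq n k) (rr_nonneg (Ω := Ω) (q := qq n) hε k)).dist_le_mul x y
      rwa [h1, Real.dist_eq, sub_zero, NNReal.coe_one, one_mul] at h2
    · rw [uu_out hε hx, abs_zero]
      exact dist_nonneg
  refine LipschitzWith.of_dist_le_mul fun x y => ?_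
  rw [NNReal.coe_one, one_mul, Real.dist_eq]
  by_cases hx : x ∈ UB Ω ε
  · by_cases hy : y ∈ UB Ω ε
    · obtain ⟨j, hj⟩ := mem_iUnion.1 hx
      obtain ⟨k, hk⟩ := mem_iUnion.1 hy
      by_cases hjk : j = k
      · subst hjk
        rw [uu_ball hε hj, uu_ball hε hk]
        have h2 := (fb_lip (qq n j) (rr_nonneg (Ω := Ω) (q := qq n) hε j)).dist_le_mul x y
        rwa [Real.dist_eq, NNReal.coe_one, one_mul] at h2
      · obtain ⟨z, hz1, hz2⟩ := crossing (mem_ball.1 hj) (mem_ball_unique hε hjk hk)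
        have hjp := rr_pos_of_mem hε hj
        have hkp := rr_pos_of_mem hε hk
        have hzj : fb (qq n j) (rr Ω (qq n) ε j) z = 0 := fb_supp hjp.le hz1.ge
        have hzk : fb (qq n k) (rr Ω (qq n) ε k) z = 0 := by
          refine fb_supp hkp.le ?_
          by_contra h
          rw [not_le] at h
          exact Set.disjoint_left.1 (cb_disj hjk hjp hkp) (mem_closedBall.2 hz1.le)
            (mem_closedBall.2 h.le)
        have h2 := (fb_lip (qq n j) hjp.le).dist_le_mul x z
        have h3 := (fb_lip (qq n k) hkp.le).dist_le_mul y z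
        rw [hzj, Real.dist_eq, sub_zero, NNReal.coe_one, one_mul, ← uu_ball hε hj] at h2
        rw [hzk, Real.dist_eq, sub_zero, NNReal.coe_one, one_mul, ← uu_ball hε hk,
          dist_comm y z] at h3
        have h4 := abs_sub (uu Ω ε x) (uu Ω ε y)
        linarith
    · rw [uu_out hε hy, sub_zero]
      exact hout x y hy
  · rw [uu_out hε hx, zero_sub, abs_neg, dist_comm]
    exact hout y x hx

theorem fb_abs (c : E (n + 3)) {r : ℝ} (hr : 0 ≤ r) (x : E (n + 3)) : |fb c r x| ≤ r := by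
  rcases le_or_gt r (dist x c) with h | h
  · rw [fb_supp hr h, abs_zero]
    exact hr
  · have h1 := (fb_lip c hr).dist_le_mul x c
    have h2 : fb c r c = 0 := by
      unfold fb
      have h0 : ss (0 : E (n + 3)) = 0 := by simp [ss]
      rw [sub_self, smul_zero, bl_light (by simp) h0]
      simp
    rw [h2, Real.dist_eq, sub_zero, NNReal.coe_one, one_mul] at h1
    linarith

theorem rho_integrable (hε : ∀ k, 0 < ε k) (hε1 : ∀ k, ε k ≤ (1 / 2) ^ k) :
    Integrable (rho Ω ε : E (n + 3) → ℝ) := by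
  have h1 : IntegrableOn (rho Ω ε) (UB Ω ε : Set (E (n + 3))) := by
    unfold UB
    apply integrableOn_iUnion_of_summable_integral_norm
    · intro k
      exact (rb_integrable (qq n k) (rr_nonneg (Ω := Ω) (q := qq n) hε k)).integrableOn.congr_fun
        (fun x hx => (rho_ball hε hx).symm) measurableSet_ball
    · refine Summable.of_nonneg_of_le (f := fun k : ℕ => (1 / 2 : ℝ) ^ k * ∫ x : E (n + 3), |rh x|)
        (fun k => integral_nonneg fun x => norm_nonneg _) (fun k => ?_)
        ((summable_geometric_of_lt_one (by norm_num) (by norm_num)).mul_right _)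
      have hr0 := rr_nonneg (Ω := Ω) (q := qq n) hε k
      have hr1 : rr Ω (qq n) ε k ≤ (1 / 2) ^ k := (rr_le k).trans (hε1 k)
      have e1 : ∫ x in ball (qq n k) (rr Ω (qq n) ε k), ‖rho Ω ε x‖
          = ∫ x in ball (qq n k) (rr Ω (qq n) ε k), |rb (qq n k) (rr Ω (qq n) ε k) x| := by
        refine setIntegral_congr_fun measurableSet_ball fun x hx => ?_
        show ‖rho Ω ε x‖ = _
        rw [rho_ball hε hx, Real.norm_eq_abs]
      rw [e1]
      refine (setIntegral_le_integral (rb_integrable (qq n k) hr0).abs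
        (Eventually.of_forall fun x => abs_nonneg _)).trans ?_
      rw [rb_norm _ hr0]
      refine mul_le_mul_of_nonneg_right ?_ (integral_nonneg fun x => abs_nonneg _)
      have h2 : (rr Ω (qq n) ε k / 36) ≤ 1 := by
        have : (1 / 2 : ℝ) ^ k ≤ 1 := pow_le_one₀ (by norm_num) (by norm_num)
        linarith
      have h3 : (rr Ω (qq n) ε k / 36) ^ (n + 2) ≤ rr Ω (qq n) ε k / 36 := by
        rw [show n + 2 = (n + 1) + 1 by ring, pow_succ]
        have h4 : (rr Ω (qq n) ε k / 36) ^ (n + 1) ≤ 1 := pow_le_one₀ (by positivity) h2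
        have h5 : 0 ≤ rr Ω (qq n) ε k / 36 := by positivity
        nlinarith
      linarith
  rw [← integrableOn_univ, ← Set.union_compl_self (UB Ω ε)]
  refine h1.union ?_
  have h2 : IntegrableOn (fun _ : E (n + 3) => (0 : ℝ)) (UB Ω ε)ᶜ := integrable_zero _ _ _
  exact h2.congr_fun (fun x hx => (rho_out hε hx).symm) UB_open.measurableSet.compl

theorem action_le (hO : IsOpen Ω) (hb : Bornology.IsBounded Ω) (hε : ∀ k, 0 < ε k)
    (hε1 : ∀ k, ε k ≤ (1 / 2) ^ k) {φ v : E (n + 3) → ℝ} (hv : InYs Ω φ v) :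
    action Ω (rho Ω ε) (uu Ω ε) ≤ action Ω (rho Ω ε) v := by
  have hfin : volume Ω ≠ ∞ := hb.measure_lt_top.ne
  have hUm : MeasurableSet (UB Ω ε : Set (E (n + 3))) := UB_open.measurableSet
  have hlip := uu_lip (n := n) (Ω := Ω) hε
  have iρ := rho_integrable (n := n) (Ω := Ω) hε hε1
  obtain ⟨⟨C, hC⟩, hvl, -⟩ := hv
  have hvc : ContinuousOn v Ω := by
    intro x hx
    obtain ⟨r, hr, -, hl⟩ := hvl x hx
    exact (hl.continuousOn.continuousAt (ball_mem_nhds x hr)).continuousWithinAt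
  have hub : ∀ x, |uu Ω ε x| ≤ 1 := by
    intro x
    by_cases hx : x ∈ UB Ω ε
    · obtain ⟨k, hk⟩ := mem_iUnion.1 hx
      rw [uu_ball hε hk]
      refine (fb_abs _ (rr_nonneg hε k) x).trans ?_
      exact ((rr_le k).trans (hε1 k)).trans (pow_le_one₀ (by norm_num) (by norm_num))
    · rw [uu_out hε hx, abs_zero]
      exact zero_le_one
  have i1 : IntegrableOn (fun x => √(1 - ‖fderiv ℝ (uu Ω ε) x‖ ^ 2)) Ω := integrable_sqrt hfin _
  have i2 : IntegrableOn (fun x => √(1 - ‖fderiv ℝ v x‖ ^ 2)) Ω := integrable_sqrt hfin _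
  have i3 : IntegrableOn (fun x => rho Ω ε x * uu Ω ε x) Ω := by
    refine Integrable.mono' iρ.integrableOn.norm
      (iρ.aestronglyMeasurable.mul hlip.continuous.aestronglyMeasurable).restrict
      (Eventually.of_forall fun x => ?_)
    rw [norm_mul]
    have := hub x
    rw [← Real.norm_eq_abs] at this
    exact mul_le_of_le_one_right (norm_nonneg _) this
  have i4 : IntegrableOn (fun x => rho Ω ε x * v x) Ω := by
    have h1 : AEStronglyMeasurable v (volume.restrict Ω) :=
      hvc.aestronglyMeasurable hO.measurableSet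
    refine Integrable.mono' (iρ.integrableOn.norm.mul_const C)
      (iρ.aestronglyMeasurable.restrict.mul h1) ?_
    filter_upwards [ae_restrict_mem hO.measurableSet] with x hx
    rw [norm_mul]
    exact mul_le_mul_of_nonneg_left (hC x hx) (norm_nonneg _)
  set F : E (n + 3) → ℝ := fun x => (√(1 - ‖fderiv ℝ (uu Ω ε) x‖ ^ 2) - √(1 - ‖fderiv ℝ v x‖ ^ 2))
    - (rho Ω ε x * v x - rho Ω ε x * uu Ω ε x) with hF
  have iF : IntegrableOn F Ω := (i1.sub i2).sub (i4.sub i3)
  have i1' : IntegrableOn (fun x => 1 - √(1 - ‖fderiv ℝ (uu Ω ε) x‖ ^ 2)) Ω :=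
    (integrableOn_const hfin).sub i1
  have i2' : IntegrableOn (fun x => 1 - √(1 - ‖fderiv ℝ v x‖ ^ 2)) Ω :=
    (integrableOn_const hfin).sub i2
  have key : action Ω (rho Ω ε) v - action Ω (rho Ω ε) (uu Ω ε) = ∫ x in Ω, F x := by
    have e1 : ∫ x in Ω, F x = ((∫ x in Ω, (1 - √(1 - ‖fderiv ℝ v x‖ ^ 2)))
        - ∫ x in Ω, (1 - √(1 - ‖fderiv ℝ (uu Ω ε) x‖ ^ 2)))
        - ((∫ x in Ω, rho Ω ε x * v x) - ∫ x in Ω, rho Ω ε x * uu Ω ε x) := by
      have a1 := integral_sub i2' i1'
      have a2 := integral_sub i4 i3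
      have a3 := integral_sub (i2'.sub i1') (i4.sub i3)
      have a4 : ∫ x in Ω, F x = ∫ x in Ω, ((((fun x => 1 - √(1 - ‖fderiv ℝ v x‖ ^ 2))
          - (fun x => 1 - √(1 - ‖fderiv ℝ (uu Ω ε) x‖ ^ 2))) x)
          - (((fun x => rho Ω ε x * v x) - (fun x => rho Ω ε x * uu Ω ε x)) x)) := by
        congr 1
        funext x
        simp only [hF, Pi.sub_apply]
        ring
      rw [a4, a3]
      simp only [Pi.sub_apply]
      rw [a1, a2]
    rw [e1]
    unfold action
    ring
  suffices h : 0 ≤ ∫ x in Ω, F x by linarith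
  have hsplit : ∫ x in Ω, F x = (∫ x in UB Ω ε, F x) + ∫ x in Ω \ UB Ω ε, F x := by
    rw [← setIntegral_union disjoint_sdiff_right (hO.measurableSet.diff hUm)
      (iF.mono_set (UB_subset hε)) (iF.mono_set diff_subset),
      Set.union_diff_cancel (UB_subset hε)]
  rw [hsplit]
  refine add_nonneg ?_ ?_
  · unfold UB
    rw [integral_iUnion (fun k => measurableSet_ball) (b_disj hε)
      (iF.mono_set (UB_subset hε))]
    refine tsum_nonneg fun k => ?_
    rcases (rr_nonneg (Ω := Ω) (q := qq n) hε k).eq_or_lt with h0 | h0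
    · rw [← h0, ball_zero]
      simp
    · have hsub := cb_subset h0
      have hvk : LipschitzOnWith 1 v (closedBall (qq n k) (rr Ω (qq n) ε k)) :=
        Pool.Agent.U562.BI.lip_convex hvl (convex_closedBall _ _) hsub
      have h1 := fb_ineq h0 hvk
      have hbs : ball (qq n k) (rr Ω (qq n) ε k) ⊆ Ω := ball_subset_closedBall.trans hsub
      have e1 : ∫ x in ball (qq n k) (rr Ω (qq n) ε k), F x
          = (∫ x in ball (qq n k) (rr Ω (qq n) ε k), (√(1 - ‖fderiv ℝ (uu Ω ε) x‖ ^ 2)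
              - √(1 - ‖fderiv ℝ v x‖ ^ 2)))
            - ∫ x in ball (qq n k) (rr Ω (qq n) ε k), (rho Ω ε x * v x - rho Ω ε x * uu Ω ε x) :=
        integral_sub ((i1.mono_set hbs).sub (i2.mono_set hbs))
          ((i4.mono_set hbs).sub (i3.mono_set hbs))
      have e2 : ∫ x in ball (qq n k) (rr Ω (qq n) ε k), (√(1 - ‖fderiv ℝ (uu Ω ε) x‖ ^ 2)
              - √(1 - ‖fderiv ℝ v x‖ ^ 2))
          = ∫ x in ball (qq n k) (rr Ω (qq n) ε k),
            (√(1 - ‖fderiv ℝ (fb (qq n k) (rr Ω (qq n) ε k)) x‖ ^ 2)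
              - √(1 - ‖fderiv ℝ v x‖ ^ 2)) := by
        refine setIntegral_congr_fun measurableSet_ball fun x hx => ?_
        have : fderiv ℝ (uu Ω ε) x = fderiv ℝ (fb (qq n k) (rr Ω (qq n) ε k)) x := by
          refine Filter.EventuallyEq.fderiv_eq ?_
          filter_upwards [isOpen_ball.mem_nhds hx] with y hy
          exact uu_ball hε hy
        simp only [this]
      have e3 : ∫ x in ball (qq n k) (rr Ω (qq n) ε k), (rho Ω ε x * v x - rho Ω ε x * uu Ω ε x)
          = ∫ x in ball (qq n k) (rr Ω (qq n) ε k), rb (qq n k) (rr Ω (qq n) ε k) x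
            * (v x - fb (qq n k) (rr Ω (qq n) ε k) x) := by
        refine setIntegral_congr_fun measurableSet_ball fun x hx => ?_
        simp only [uu_ball hε hx, rho_ball hε hx]
        ring
      rw [e1, e2, e3]
      linarith
  · refine setIntegral_nonneg_of_ae_restrict ?_
    have h1 : ∀ᵐ x, uu Ω ε x = 0 → fderiv ℝ (uu Ω ε) x = 0 := fderiv_zero_ae hlip
    filter_upwards [ae_restrict_of_ae h1, ae_restrict_mem (hO.measurableSet.diff hUm)] with x hx hxm
    have h2 := uu_out hε hxm.2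
    simp only [hF, Pi.zero_apply]
    rw [hx h2, h2, rho_out hε hxm.2]
    obtain ⟨h3, h4⟩ := sqrt_bounds (‖fderiv ℝ v x‖ ^ 2) (sq_nonneg _)
    simp

end sup

end Pool.Agent.U562.LS
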