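import Pool.Agent.U562.LS.Five
import Pool.Agent.U562.LS.Defs

/-!
# A family of disjoint balls with dense union
-/

set_option autoImplicit false

open MeasureTheory Metric Set Real Filter Topology
open scoped ENNReal

namespace Pool.Agent.U562.LS

open Pool.Agent.U562.BI (E)

section fam

variable {X : Type*} [PseudoMetricSpace X] (Ω : Set X) (q : ℕ → X) (ε : ℕ → ℝ)

/-- The closed set used up before step `k`. -/
noncomputable def FF : ℕ → Set X
  | 0 => Ωᶜ
  | (k + 1) => FF k ∪ closedBall (q k) (min (ε k) (infDist (q k) (FF k) / 2))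

/-- The radius of the ball number `k`. -/
noncomputable def rr (k : ℕ) : ℝ := min (ε k) (infDist (q k) (FF Ω q ε k) / 2)

variable {Ω q ε}

theorem FF_succ (k : ℕ) : FF Ω q ε (k + 1) = FF Ω q ε k ∪ closedBall (q k) (rr Ω q ε k) := rfl

theorem FF_closed (hO : IsOpen Ω) (k : ℕ) : IsClosed (FF Ω q ε k) := by
  induction k with
  | zero => exact hO.isClosed_compl
  | succ k ih =>
    rw [FF_succ]
    exact ih.union isClosed_closedBall

theorem FF_mono {j k : ℕ} (h : j ≤ k) : FF Ω q ε j ⊆ FF Ω q ε k := by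
  induction h with
  | refl => exact subset_rfl
  | step _ ih =>
    rw [Nat.succ_eq_add_one, FF_succ]
    exact ih.trans subset_union_left

theorem compl_subset_FF (k : ℕ) : Ωᶜ ⊆ FF Ω q ε k := FF_mono (j := 0) (Nat.zero_le k)

theorem rr_nonneg (hε : ∀ k, 0 < ε k) (k : ℕ) : 0 ≤ rr Ω q ε k :=
  le_min (hε k).le (div_nonneg infDist_nonneg (by norm_num))

theorem rr_le (k : ℕ) : rr Ω q ε k ≤ ε k := min_le_left _ _

theorem rr_pos (hO : IsOpen Ω) (hne : (Ωᶜ).Nonempty) (hε : ∀ k, 0 < ε k) {k : ℕ}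
    (h : q k ∉ FF Ω q ε k) : 0 < rr Ω q ε k := by
  refine lt_min (hε k) (half_pos ?_)
  exact ((FF_closed hO k).notMem_iff_infDist_pos (hne.mono (compl_subset_FF k))).1 h

theorem rr_disj {k : ℕ} (h : 0 < rr Ω q ε k) :
    Disjoint (closedBall (q k) (rr Ω q ε k)) (FF Ω q ε k) := by
  rw [Set.disjoint_left]
  intro y hy1 hy2
  have h1 : infDist (q k) (FF Ω q ε k) ≤ dist (q k) y := infDist_le_dist_of_mem hy2
  rw [mem_closedBall, dist_comm] at hy1
  have h2 : rr Ω q ε k ≤ infDist (q k) (FF Ω q ε k) / 2 := min_le_right _ _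
  linarith

theorem ball_subset_FF {j k : ℕ} (h : j < k) : closedBall (q j) (rr Ω q ε j) ⊆ FF Ω q ε k := by
  refine Subset.trans ?_ (FF_mono (Nat.succ_le_of_lt h))
  rw [Nat.succ_eq_add_one, FF_succ]
  exact subset_union_right

theorem cb_disj {j k : ℕ} (hjk : j ≠ k) (hj : 0 < rr Ω q ε j) (hk : 0 < rr Ω q ε k) :
    Disjoint (closedBall (q j) (rr Ω q ε j)) (closedBall (q k) (rr Ω q ε k)) := by
  rcases lt_or_gt_of_ne hjk with h | h
  · exact ((rr_disj hk).mono_right (ball_subset_FF h)).symm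
  · exact (rr_disj hj).mono_right (ball_subset_FF h)

theorem b_disj (hε : ∀ k, 0 < ε k) :
    Pairwise (Function.onFun Disjoint fun k => ball (q k) (rr Ω q ε k)) := by
  intro j k hjk
  show Disjoint (ball (q j) (rr Ω q ε j)) (ball (q k) (rr Ω q ε k))
  rcases (rr_nonneg (Ω := Ω) (q := q) hε j).eq_or_lt with h | h
  · rw [← h, ball_zero]
    exact disjoint_bot_left
  · rcases (rr_nonneg (Ω := Ω) (q := q) hε k).eq_or_lt with h' | h'
    · rw [← h', ball_zero]
      exact disjoint_bot_right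
    · exact (cb_disj hjk h h').mono ball_subset_closedBall ball_subset_closedBall

theorem cb_subset {k : ℕ} (h : 0 < rr Ω q ε k) : closedBall (q k) (rr Ω q ε k) ⊆ Ω := by
  have h1 := (rr_disj h).mono_right (compl_subset_FF k)
  rw [Set.disjoint_compl_right_iff_subset] at h1
  exact h1

/-- Every point of the remaining set is a limit of centres of balls with positive radius. -/
theorem near_centre (hO : IsOpen Ω) (hne : (Ωᶜ).Nonempty) (hε : ∀ k, 0 < ε k)
    (hε0 : Tendsto ε atTop (𝓝 0)) (hq : Ω ⊆ closure (range q)) {x : X} (hx : x ∈ Ω)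
    (hxb : ∀ k, x ∉ closedBall (q k) (rr Ω q ε k)) {η : ℝ} (hη : 0 < η) :
    ∃ k, 0 < rr Ω q ε k ∧ rr Ω q ε k ≤ η ∧ dist (q k) x ≤ η := by
  obtain ⟨N, hN⟩ := (hε0.eventually (gt_mem_nhds (half_pos hη))).exists_forall_of_atTop
  have hxF : x ∉ FF Ω q ε N := by
    have : ∀ k, x ∉ FF Ω q ε k := by
      intro k
      induction k with
      | zero => exact fun h => h hx
      | succ k ih =>
        rw [FF_succ]
        rintro (h | h)
        · exact ih h
        · exact hxb k h
    exact this N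
  have hopen : (FF Ω q ε N)ᶜ ∩ ball x (η / 2) ∈ 𝓝 x :=
    inter_mem ((FF_closed hO N).isOpen_compl.mem_nhds hxF) (ball_mem_nhds x (half_pos hη))
  obtain ⟨y, hy1, ⟨k, rfl⟩⟩ := mem_closure_iff_nhds.1 (hq hx) _ hopen
  obtain ⟨hk1, hk2⟩ := hy1
  -- the first index `j` with `q k ∈ FF (j + 1)`
  have hk : q k ∈ FF Ω q ε (k + 1) := by
    rw [FF_succ]
    exact Or.inr (mem_closedBall_self (rr_nonneg hε k))
  classical
  have hex : ∃ j, q k ∈ FF Ω q ε j := ⟨k + 1, hk⟩
  set j := Nat.find hex with hj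
  have hj1 : q k ∈ FF Ω q ε j := Nat.find_spec hex
  have hj0 : N < j := by
    by_contra h
    rw [not_lt] at h
    exact hk1 (FF_mono h hj1)
  obtain ⟨i, hi⟩ : ∃ i, j = i + 1 := ⟨j - 1, by omega⟩
  have hi1 : q k ∉ FF Ω q ε i := Nat.find_min hex (by omega)
  rw [hi, FF_succ] at hj1
  have hi2 : q k ∈ closedBall (q i) (rr Ω q ε i) := hj1.resolve_left hi1
  have hi3 : 0 < rr Ω q ε i := by
    rcases (rr_nonneg (Ω := Ω) (q := q) hε i).eq_or_lt with h | h
    · exfalso
      have h2 : infDist (q i) (FF Ω q ε i) = 0 := by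
        have h3 : min (ε i) (infDist (q i) (FF Ω q ε i) / 2) = 0 := h.symm
        have h4 := hε i
        rcases min_choice (ε i) (infDist (q i) (FF Ω q ε i) / 2) with h5 | h5
        · rw [h5] at h3
          exact absurd h3 h4.ne'
        · rw [h5] at h3
          linarith
      have h3 : q i ∈ FF Ω q ε i :=
        ((FF_closed hO i).mem_iff_infDist_zero (hne.mono (compl_subset_FF i))).2 h2
      rw [← h, mem_closedBall] at hi2
      have h4 : dist (q k) (q i) = 0 := le_antisymm hi2 dist_nonneg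
      have h5 : infDist (q k) (FF Ω q ε i) = 0 := by
        have := infDist_le_dist_of_mem h3 (x := q k)
        exact le_antisymm (this.trans h4.le) infDist_nonneg
      exact hi1 (((FF_closed hO i).mem_iff_infDist_zero (hne.mono (compl_subset_FF i))).2 h5)
    · exact h
  have hiN : N ≤ i := by omega
  have h1 : rr Ω q ε i ≤ η / 2 := (rr_le i).trans (hN i hiN).le
  refine ⟨i, hi3, by linarith, ?_⟩
  rw [mem_ball] at hk2
  rw [mem_closedBall, dist_comm] at hi2
  have := dist_triangle (q i) (q k) x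
  linarith

end fam

end Pool.Agent.U562.LS
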