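import Pool.Agent.U562.LS.Two
import Pool.Agent.U562.BI.Prof

/-!
# The block in `ℝ^(n+3)` and its field
-/

set_option autoImplicit false

open MeasureTheory Metric Set Real Filter Topology
open scoped ENNReal ContDiff

namespace Pool.Agent.U562.LS

open Pool.Agent.U562.BI (E)

variable {n : ℕ}

/-- The squared distance to the axis. -/
noncomputable def ss (x : E (n + 3)) : ℝ := ∑ i : Fin (n + 2), x i.succ ^ 2

theorem ss_nonneg (x : E (n + 3)) : 0 ≤ ss x := Finset.sum_nonneg fun i _ => sq_nonneg _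

theorem norm_sq_eq (x : E (n + 3)) : ‖x‖ ^ 2 = x 0 ^ 2 + ss x := by
  rw [EuclideanSpace.norm_sq_eq, Fin.sum_univ_succ]
  simp [ss, sq_abs]

/-- The block. -/
noncomputable def bl (x : E (n + 3)) : ℝ := UU (x 0) * GG (ss x)

/-- A vector of the form `a e₀ + b x'`. -/
noncomputable def vec (a b : ℝ) (x : E (n + 3)) : E (n + 3) :=
  WithLp.toLp 2 (Fin.cons a fun i => b * x i.succ)

@[simp] theorem vec_zero (a b : ℝ) (x : E (n + 3)) : vec a b x 0 = a := rfl
@[simp] theorem vec_succ (a b : ℝ) (x : E (n + 3)) (i : Fin (n + 2)) :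
    vec a b x i.succ = b * x i.succ := rfl

theorem norm_vec (a b : ℝ) (x : E (n + 3)) : ‖vec a b x‖ ^ 2 = a ^ 2 + b ^ 2 * ss x := by
  rw [norm_sq_eq]
  simp only [vec_zero, ss, vec_succ, mul_pow, Finset.mul_sum]

theorem vec_smul (c a b : ℝ) (x : E (n + 3)) : c • vec a b x = vec (c * a) (c * b) x := by
  ext i
  refine Fin.cases ?_ (fun i => ?_) i
  · simp
  · simp
    ring

theorem inner_vec (a b : ℝ) (x v : E (n + 3)) :
    inner ℝ (vec a b x) v = a * v 0 + b * ∑ i : Fin (n + 2), x i.succ * v i.succ := by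
  rw [PiLp.inner_apply, Fin.sum_univ_succ, Finset.mul_sum]
  simp only [vec_zero, vec_succ, RCLike.inner_apply, conj_trivial]
  congr 1
  · ring
  · refine Finset.sum_congr rfl fun i _ => ?_
    ring

theorem ss_hasFDeriv (x : E (n + 3)) : HasFDerivAt (ss : E (n + 3) → ℝ) (innerSL ℝ (vec 0 2 x)) x := by
  have h1 : ∀ i : Fin (n + 2), HasFDerivAt (fun y : E (n + 3) => y i.succ ^ 2)
      ((2 * x i.succ) • (EuclideanSpace.proj i.succ : E (n + 3) →L[ℝ] ℝ)) x := by
    intro i
    have h2 : HasFDerivAt (fun y : E (n + 3) => y i.succ)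
      (EuclideanSpace.proj i.succ : E (n + 3) →L[ℝ] ℝ) x :=
      (EuclideanSpace.proj i.succ : E (n + 3) →L[ℝ] ℝ).hasFDerivAt
    have h3 := h2.pow 2
    refine h3.congr_fderiv ?_
    ext v
    simp
  have h2 : HasFDerivAt (fun y : E (n + 3) => ∑ i : Fin (n + 2), y i.succ ^ 2)
      (∑ i : Fin (n + 2), (2 * x i.succ) • (EuclideanSpace.proj i.succ : E (n + 3) →L[ℝ] ℝ)) x :=
    HasFDerivAt.fun_sum fun i _ => h1 i
  refine h2.congr_fderiv ?_
  ext v
  rw [innerSL_apply_apply, inner_vec, zero_mul, zero_add, ContinuousLinearMap.sum_apply,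
    Finset.mul_sum]
  refine Finset.sum_congr rfl fun i _ => ?_
  simp only [ContinuousLinearMap.smul_apply, smul_eq_mul, EuclideanSpace.proj, PiLp.proj_apply]
  ring

/-- The gradient of the block. -/
noncomputable def WW (x : E (n + 3)) : E (n + 3) :=
  vec (U1 (x 0) * GG (ss x)) (2 * UU (x 0) * G1 (ss x)) x

theorem bl_hasFDeriv (x : E (n + 3)) : HasFDerivAt (bl : E (n + 3) → ℝ) (innerSL ℝ (WW x)) x := by
  have h0 : HasFDerivAt (fun y : E (n + 3) => y 0)
      (EuclideanSpace.proj 0 : E (n + 3) →L[ℝ] ℝ) x :=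
      (EuclideanSpace.proj 0 : E (n + 3) →L[ℝ] ℝ).hasFDerivAt
  have h1 := (UU_hasDeriv (x 0)).comp_hasFDerivAt x h0
  have h2 := (GG_hasDeriv (ss x)).comp_hasFDerivAt x (ss_hasFDeriv x)
  refine (h1.mul h2).congr_fderiv ?_
  ext v
  simp only [ContinuousLinearMap.add_apply, ContinuousLinearMap.smul_apply, innerSL_apply_apply,
    Function.comp_apply, WW, inner_vec, smul_eq_mul, EuclideanSpace.proj, PiLp.proj_apply]
  ring

theorem norm_WW (x : E (n + 3)) : ‖WW x‖ ^ 2 = PP (x 0) (ss x) := by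
  unfold WW PP
  rw [norm_vec]
  ring

theorem norm_fderiv_bl (x : E (n + 3)) : ‖fderiv ℝ bl x‖ ^ 2 = PP (x 0) (ss x) := by
  rw [(bl_hasFDeriv x).fderiv, innerSL_apply_norm, norm_WW]

theorem bl_lip : LipschitzWith 1 (bl : E (n + 3) → ℝ) := by
  refine lipschitzWith_of_nnnorm_fderiv_le (𝕜 := ℝ) (fun x => (bl_hasFDeriv x).differentiableAt) ?_
  intro x
  rw [← NNReal.coe_le_coe, coe_nnnorm, NNReal.coe_one]
  refine abs_le_of_sq_le_sq' ?_ zero_le_one |>.2
  rw [norm_fderiv_bl]
  simpa using PP_le_one (ss_nonneg x)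

/-- The field `λ Du / √(1 - λ² |Du|²)`. -/
noncomputable def VF (lam : ℝ) (x : E (n + 3)) : E (n + 3) :=
  vec (al lam (x 0) (ss x)) (be lam (x 0) (ss x)) x

theorem VF_eq (lam : ℝ) (x : E (n + 3)) :
    VF lam x = (lam / SD lam (x 0) (ss x)) • WW x := by
  unfold VF WW al be
  rw [vec_smul]
  congr 1 <;> ring

theorem dual_block {lam : ℝ} (hl : 0 ≤ lam) (h1 : lam < 1) (x : E (n + 3))
    {q : E (n + 3) →L[ℝ] ℝ} (hq : ‖q‖ ≤ 1) :
    √(1 - ‖q‖ ^ 2) + q (VF lam x)
      ≤ SD lam (x 0) (ss x) + lam * fderiv ℝ bl x (VF lam x) := by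
  have h := Pool.Agent.U562.BI.dual_ineq hq (VF lam x)
  refine h.trans (le_of_eq ?_)
  have hp := SD_pos (t := x 0) hl h1 (ss_nonneg x)
  have hS : 0 < SD lam (x 0) (ss x) := Real.sqrt_pos.2 hp
  have hS2 : SD lam (x 0) (ss x) ^ 2 = 1 - lam ^ 2 * PP (x 0) (ss x) := Real.sq_sqrt hp.le
  rw [(bl_hasFDeriv x).fderiv, VF_eq, innerSL_apply_apply, inner_smul_right,
    real_inner_self_eq_norm_sq, norm_smul, mul_pow, norm_WW]
  have e1 : ‖lam / SD lam (x 0) (ss x)‖ ^ 2 = lam ^ 2 / SD lam (x 0) (ss x) ^ 2 := by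
    rw [Real.norm_eq_abs, sq_abs, div_pow]
  rw [e1]
  set S := SD lam (x 0) (ss x) with hSdef
  set P := PP (x 0) (ss x) with hPdef
  have e2 : 1 + lam ^ 2 / S ^ 2 * P = (1 / S) ^ 2 := by
    have : lam ^ 2 * P = 1 - S ^ 2 := by linarith
    field_simp
    linarith
  rw [e2, Real.sqrt_sq (by positivity)]
  have : lam ^ 2 * P = 1 - S ^ 2 := by linarith
  field_simp
  linarith

theorem bl_light {x : E (n + 3)} (h0 : |x 0| ≤ 1) (hs : ss x = 0) : bl x = x 0 := by
  unfold bl
  rw [UU_id h0, hs, GG_at_zero, mul_one]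

theorem bl_supp {x : E (n + 3)} (h : 35 ≤ ‖x‖) : bl x = 0 := by
  have h1 : 35 ^ 2 ≤ ‖x‖ ^ 2 := by gcongr
  rw [norm_sq_eq] at h1
  unfold bl
  rcases le_total 7 |x 0| with h2 | h2
  · rw [UU_zero h2, zero_mul]
  · have h3 : |x 0| ^ 2 ≤ 7 ^ 2 := by gcongr
    rw [sq_abs] at h3
    have h4 : 1 ≤ dl * ss x := by
      unfold dl
      linarith
    rw [(GG_zero h4).1, mul_zero]

theorem VF_supp {lam : ℝ} {x : E (n + 3)} (h : 35 < ‖x‖) : VF lam x = 0 := by
  have h1 : 35 ^ 2 < ‖x‖ ^ 2 := by gcongr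
  rw [norm_sq_eq] at h1
  unfold VF al be
  rcases lt_or_ge 7 |x 0| with h2 | h2
  · have h4 : UU (x 0) = 0 := UU_zero h2.le
    have hev : ∀ᶠ y in 𝓝 (x 0), 7 < |y| := continuous_abs.continuousAt.eventually (lt_mem_nhds h2)
    have h5 : UU =ᶠ[𝓝 (x 0)] fun _ => 0 := by
      filter_upwards [hev] with y hy
      exact UU_zero hy.le
    have h6 : U1 (x 0) = 0 := by
      rw [← (UU_hasDeriv (x 0)).deriv, h5.deriv_eq]
      simp
    rw [h4, h6]
    ext i
    refine Fin.cases ?_ (fun i => ?_) i <;> simp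
  · have h3 : |x 0| ^ 2 ≤ 7 ^ 2 := by gcongr
    rw [sq_abs] at h3
    have h4 : 1 ≤ dl * ss x := by
      unfold dl
      linarith
    rw [(GG_zero h4).1, (GG_zero h4).2.1]
    ext i
    refine Fin.cases ?_ (fun i => ?_) i <;> simp

theorem VF_contDiff {lam : ℝ} (hl : 0 ≤ lam) (h1 : lam < 1) :
    ContDiff ℝ 1 (VF lam : E (n + 3) → E (n + 3)) := by
  have c0 : ∀ i, ContDiff ℝ 1 (fun x : E (n + 3) => x i) := fun i =>
    (EuclideanSpace.proj i : E (n + 3) →L[ℝ] ℝ).contDiff
  have cs : ContDiff ℝ 1 (ss : E (n + 3) → ℝ) := by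
    unfold ss
    exact ContDiff.sum fun i _ => (c0 i.succ).pow 2
  have cU := UU_contDiff.comp (c0 0)
  have cU1 := U1_contDiff.comp (c0 0)
  have cG := GG_contDiff.comp cs
  have cG1 := G1_contDiff.comp cs
  have cP : ContDiff ℝ 1 (fun x : E (n + 3) => PP (x 0) (ss x)) := by
    unfold PP
    exact ((cU1.pow 2).mul (cG.pow 2)).add (((contDiff_const.mul cs).mul (cU.pow 2)).mul (cG1.pow 2))
  have cS : ContDiff ℝ 1 (fun x : E (n + 3) => SD lam (x 0) (ss x)) := by
    unfold SD
    exact (contDiff_const.sub (contDiff_const.mul cP)).sqrt fun x =>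
      (SD_pos hl h1 (ss_nonneg x)).ne'
  have hS : ∀ x : E (n + 3), SD lam (x 0) (ss x) ≠ 0 := fun x =>
    (Real.sqrt_pos.2 (SD_pos hl h1 (ss_nonneg x))).ne'
  have ca : ContDiff ℝ 1 (fun x : E (n + 3) => al lam (x 0) (ss x)) := by
    unfold al
    exact (contDiff_const.mul (cU1.mul cG)).div cS hS
  have cb : ContDiff ℝ 1 (fun x : E (n + 3) => be lam (x 0) (ss x)) := by
    unfold be
    exact (contDiff_const.mul ((contDiff_const.mul cU).mul cG1)).div cS hS
  rw [contDiff_euclidean]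
  intro i
  refine Fin.cases ?_ (fun i => ?_) i
  · exact ca
  · exact cb.mul (c0 i.succ)

theorem VF_compact (lam : ℝ) : HasCompactSupport (VF lam : E (n + 3) → E (n + 3)) := by
  refine HasCompactSupport.intro (K := closedBall 0 35) (isCompact_closedBall _ _) ?_
  intro x hx
  rw [mem_closedBall, dist_zero_right, not_le] at hx
  exact VF_supp hx

/-- General integration by parts. -/
theorem ibp_vec {m : ℕ} {F : E m → E m} (hF : ContDiff ℝ 1 F) (hc : HasCompactSupport F)
    {ψ : E m → ℝ} {C : NNReal} (hψ : LipschitzWith C ψ) {d : E m → ℝ}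
    (hd : ∀ x, ∑ i, lineDeriv ℝ (fun y => F y i) x (EuclideanSpace.single i 1) = d x) :
    Integrable (fun x => fderiv ℝ ψ x (F x)) ∧ Integrable (fun x => d x * ψ x) ∧
    ∫ x, fderiv ℝ ψ x (F x) = -∫ x, d x * ψ x := by
  classical
  let B := EuclideanSpace.basisFun (Fin m) ℝ
  have hB : ∀ i, B i = EuclideanSpace.single i 1 := fun i => EuclideanSpace.basisFun_apply _ _ i
  set Y : Fin m → E m → ℝ := fun i x => F x i with hY
  have hYs : ∀ i, ContDiff ℝ 1 (Y i) := fun i => (contDiff_euclidean.1 hF) i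
  have hYc : ∀ i, HasCompactSupport (Y i) := fun i =>
    hc.comp_left (g := fun v : E m => v i) rfl
  have hYl : ∀ i, ∃ D, LipschitzWith D (Y i) := fun i =>
    ContDiff.lipschitzWith_of_hasCompactSupport (hYc i) (hYs i) (by simp)
  have key : ∀ i, ∫ x, lineDeriv ℝ ψ x (B i) * Y i x = ∫ x, lineDeriv ℝ (Y i) x (-(B i)) * ψ x := by
    intro i
    obtain ⟨D, hD⟩ := hYl i
    exact hψ.integral_lineDeriv_mul_eq hD (hYc i) (B i)
  have L1 : ∀ᵐ x : E m, fderiv ℝ ψ x (F x) = ∑ i, lineDeriv ℝ ψ x (B i) * Y i x := by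
    filter_upwards [hψ.ae_differentiableAt] with x hx
    have e1 : ∀ i, lineDeriv ℝ ψ x (B i) = fderiv ℝ ψ x (B i) := fun i => hx.lineDeriv_eq_fderiv
    have e3 : F x = ∑ i, Y i x • B i := by
      have := (B.sum_repr (F x)).symm
      simpa [B, hY] using this
    nth_rewrite 1 [e3]
    rw [map_sum]
    refine Finset.sum_congr rfl fun i _ => ?_
    rw [map_smul, e1, smul_eq_mul, mul_comm]
  have R1 : ∀ x : E m, ∑ i, lineDeriv ℝ (Y i) x (-(B i)) * ψ x = -(d x * ψ x) := by
    intro x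
    have e2 : ∀ i, lineDeriv ℝ (Y i) x (-(B i)) = -lineDeriv ℝ (Y i) x (EuclideanSpace.single i 1) := by
      intro i
      have hdd : DifferentiableAt ℝ (Y i) x := (hYs i).differentiable (by norm_num) x
      rw [hdd.lineDeriv_eq_fderiv, hdd.lineDeriv_eq_fderiv, map_neg, hB]
    rw [← Finset.sum_mul, Finset.sum_congr rfl fun i _ => e2 i, Finset.sum_neg_distrib, hd x]
    ring
  have iL : ∀ i, Integrable fun x => lineDeriv ℝ ψ x (B i) * Y i x := by
    intro i
    have h1 := hψ.locallyIntegrable_lineDeriv (μ := (volume : Measure (E m))) (B i)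
    have := h1.integrable_smul_right_of_hasCompactSupport (hYs i).continuous (hYc i)
    simpa [smul_eq_mul] using this
  have iR : ∀ i, Integrable fun x => lineDeriv ℝ (Y i) x (-(B i)) * ψ x := by
    intro i
    have h1 : Continuous fun x => lineDeriv ℝ (Y i) x (-(B i)) := by
      have h2 : (fun x => lineDeriv ℝ (Y i) x (-(B i))) = fun x => fderiv ℝ (Y i) x (-(B i)) := by
        funext x
        exact ((hYs i).differentiable (by norm_num) x).lineDeriv_eq_fderiv
      rw [h2]
      exact ((hYs i).continuous_fderiv (by norm_num)).clm_apply continuous_const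
    have h3 : HasCompactSupport fun x => lineDeriv ℝ (Y i) x (-(B i)) := by
      have h2 : (fun x => lineDeriv ℝ (Y i) x (-(B i))) = fun x => fderiv ℝ (Y i) x (-(B i)) := by
        funext x
        exact ((hYs i).differentiable (by norm_num) x).lineDeriv_eq_fderiv
      rw [h2]
      exact (hYc i).fderiv_apply (𝕜 := ℝ) (-(B i))
    exact (h1.mul hψ.continuous).integrable_of_hasCompactSupport h3.mul_right
  have iN : Integrable fun x => -(d x * ψ x) :=
    (integrable_finsetSum _ fun i _ => iR i).congr (Eventually.of_forall R1)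
  refine ⟨(integrable_finsetSum _ fun i _ => iL i).congr (L1.mono fun x hx => hx.symm), ?_, ?_⟩
  · have := iN.neg
    refine this.congr (Eventually.of_forall fun x => ?_)
    simp
  · rw [integral_congr_ae L1, integral_finsetSum _ fun i _ => iL i,
      Finset.sum_congr rfl fun i _ => key i, ← integral_finsetSum _ fun i _ => iR i,
      integral_congr_ae (Eventually.of_forall R1), integral_neg]

theorem VF_div {lam : ℝ} (hl : 0 ≤ lam) (h1 : lam < 1) (x : E (n + 3)) :
    ∑ i, lineDeriv ℝ (fun y => VF lam y i) x (EuclideanSpace.single i 1)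
      = dv (n + 2) lam (x 0) (ss x) := by
  rw [Fin.sum_univ_succ]
  have e0 : lineDeriv ℝ (fun y => VF lam y 0) x (EuclideanSpace.single (0 : Fin (n + 3)) (1 : ℝ))
      = alt lam (x 0) (ss x) := by
    unfold lineDeriv
    have h2 : (fun r : ℝ => VF lam (x + r • EuclideanSpace.single (0 : Fin (n + 3)) (1 : ℝ)) 0)
        = fun r : ℝ => al lam (x 0 + r) (ss x) := by
      funext r
      unfold VF
      rw [vec_zero]
      congr 1
      · simp
      · unfold ss
        refine Finset.sum_congr rfl fun i _ => ?_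
        simp
    rw [h2]
    have h3 := (al_hasDeriv (t := x 0 + 0) hl h1 (ss_nonneg x)).comp_const_add (x 0) 0
    rw [add_zero] at h3
    exact h3.deriv
  have e1 : ∀ i : Fin (n + 2), lineDeriv ℝ (fun y => VF lam y i.succ) x
      (EuclideanSpace.single i.succ (1 : ℝ))
      = be lam (x 0) (ss x) + 2 * bes lam (x 0) (ss x) * x i.succ ^ 2 := by
    intro i
    unfold lineDeriv
    have h2 : (fun r : ℝ => VF lam (x + r • EuclideanSpace.single i.succ (1 : ℝ)) i.succ)
        = fun r : ℝ => be lam (x 0) (ss x + (2 * x i.succ * r + r ^ 2)) * (x i.succ + r) := by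
      funext r
      unfold VF
      rw [vec_succ]
      have a1 : (x + r • EuclideanSpace.single i.succ (1 : ℝ)).ofLp i.succ = x i.succ + r := by
        simp
      have a2 : (x + r • EuclideanSpace.single i.succ (1 : ℝ)).ofLp 0 = x 0 := by
        simp
      have a3 : ss (x + r • EuclideanSpace.single i.succ (1 : ℝ))
          = ss x + (2 * x i.succ * r + r ^ 2) := by
        unfold ss
        rw [← Finset.add_sum_erase _ _ (Finset.mem_univ i),
          ← Finset.add_sum_erase (a := i) _ (fun j : Fin (n + 2) => x j.succ ^ 2) (Finset.mem_univ i)]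
        have a4 : ∑ j ∈ Finset.univ.erase i, (x + r • EuclideanSpace.single i.succ (1 : ℝ)).ofLp j.succ ^ 2
            = ∑ j ∈ Finset.univ.erase i, x j.succ ^ 2 := by
          refine Finset.sum_congr rfl fun j hj => ?_
          have : j ≠ i := Finset.ne_of_mem_erase hj
          simp [this]
        rw [a4, a1]
        ring
      rw [a1, a2, a3]
    rw [h2]
    have h3 : HasDerivAt (fun r : ℝ => ss x + (2 * x i.succ * r + r ^ 2)) (2 * x i.succ) 0 := by
      have := (((hasDerivAt_id (0 : ℝ)).const_mul (2 * x i.succ)).add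
        ((hasDerivAt_id (0 : ℝ)).pow 2)).const_add (ss x)
      simpa using this
    have h4 : HasDerivAt (fun s => be lam (x 0) s) (bes lam (x 0) (ss x))
        (ss x + (2 * x i.succ * 0 + 0 ^ 2)) := by
      have := be_hasDeriv (t := x 0) hl h1 (ss_nonneg x)
      simpa using this
    have h5 := h4.comp (0 : ℝ) h3
    have h6 : HasDerivAt (fun r : ℝ => x i.succ + r) 1 0 := (hasDerivAt_id (0 : ℝ)).const_add _
    have h7 := (h5.mul h6).deriv
    refine Eq.trans ?_ (h7.trans ?_)
    · rfl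
    · simp
      ring
  rw [e0, Finset.sum_congr rfl fun i _ => e1 i, Finset.sum_add_distrib, ← Finset.mul_sum,
    ← dv_eq]
  simp only [Finset.sum_const, Finset.card_univ, Fintype.card_fin, nsmul_eq_mul]
  unfold ss
  push_cast
  ring

end Pool.Agent.U562.LS
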