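import Pool.Agent.U562.LS.One

/-!
# The partial derivatives of the profile and the bound of the divergence
-/

set_option autoImplicit false

open MeasureTheory Metric Set Real Filter Topology

namespace Pool.Agent.U562.LS

noncomputable def Pt (t s : ℝ) : ℝ := 2 * U1 t * U2 t * GG s ^ 2 + 8 * s * UU t * U1 t * G1 s ^ 2
noncomputable def Ps (t s : ℝ) : ℝ :=
  2 * U1 t ^ 2 * GG s * G1 s + 4 * UU t ^ 2 * G1 s ^ 2 + 8 * s * UU t ^ 2 * G1 s * G2 s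

theorem PP_hasDeriv_t (t s : ℝ) : HasDerivAt (fun t => PP t s) (Pt t s) t := by
  unfold PP
  have h1 := ((U1_hasDeriv t).pow 2).mul_const (GG s ^ 2)
  have h2 := (((UU_hasDeriv t).pow 2).const_mul (4 * s)).mul_const (G1 s ^ 2)
  refine (h1.add h2).congr_deriv ?_
  unfold Pt
  simp only [Nat.cast_ofNat, Nat.add_one_sub_one, pow_one]
  ring

theorem PP_hasDeriv_s (t s : ℝ) : HasDerivAt (fun s => PP t s) (Ps t s) s := by
  unfold PP
  have h1 := ((GG_hasDeriv s).pow 2).const_mul (U1 t ^ 2)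
  have h2 := ((((hasDerivAt_id s).const_mul 4).mul_const (UU t ^ 2))).mul ((G1_hasDeriv s).pow 2)
  refine (h1.add h2).congr_deriv ?_
  unfold Ps
  norm_num
  ring

/-- `√(1 - λ² P)`. -/
noncomputable def SD (lam t s : ℝ) : ℝ := √(1 - lam ^ 2 * PP t s)

theorem SD_pos {lam t s : ℝ} (hl : 0 ≤ lam) (h1 : lam < 1) (hs : 0 ≤ s) :
    0 < 1 - lam ^ 2 * PP t s := by
  have a1 := PP_le_one (t := t) hs
  have a2 := PP_nonneg (t := t) hs
  have a3 : lam ^ 2 < 1 := by nlinarith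
  nlinarith

/-- The components of the field. -/
noncomputable def al (lam t s : ℝ) : ℝ := lam * (U1 t * GG s) / SD lam t s
noncomputable def be (lam t s : ℝ) : ℝ := lam * (2 * UU t * G1 s) / SD lam t s
noncomputable def alt (lam t s : ℝ) : ℝ :=
  lam * (U2 t * GG s) / SD lam t s + lam ^ 3 * (U1 t * GG s) * Pt t s / (2 * SD lam t s ^ 3)
noncomputable def bes (lam t s : ℝ) : ℝ :=
  lam * (2 * UU t * G2 s) / SD lam t s + lam ^ 3 * (2 * UU t * G1 s) * Ps t s / (2 * SD lam t s ^ 3)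

theorem al_hasDeriv {lam t s : ℝ} (hl : 0 ≤ lam) (h1 : lam < 1) (hs : 0 ≤ s) :
    HasDerivAt (fun t => al lam t s) (alt lam t s) t := by
  have hp := SD_pos (t := t) hl h1 hs
  have h2 := (((PP_hasDeriv_t t s).const_mul (lam ^ 2)).const_sub 1).sqrt hp.ne'
  have h3 := (((U1_hasDeriv t).mul_const (GG s)).const_mul lam)
  have hS : 0 < √(1 - lam ^ 2 * PP t s) := Real.sqrt_pos.2 hp
  have h4 := h3.div h2 hS.ne'
  unfold al SD
  refine h4.congr_deriv ?_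
  unfold alt SD
  field_simp
  ring

theorem be_hasDeriv {lam t s : ℝ} (hl : 0 ≤ lam) (h1 : lam < 1) (hs : 0 ≤ s) :
    HasDerivAt (fun s => be lam t s) (bes lam t s) s := by
  have hp := SD_pos (t := t) hl h1 hs
  have h2 := (((PP_hasDeriv_s t s).const_mul (lam ^ 2)).const_sub 1).sqrt hp.ne'
  have h3 := (((G1_hasDeriv s).const_mul (2 * UU t)).const_mul lam)
  have hS : 0 < √(1 - lam ^ 2 * PP t s) := Real.sqrt_pos.2 hp
  have h4 := h3.div h2 hS.ne'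
  unfold be SD
  refine h4.congr_deriv ?_
  unfold bes SD
  field_simp
  ring

noncomputable def N1 (k t s : ℝ) : ℝ := U2 t * GG s + k * (2 * UU t * G1 s) + 4 * s * UU t * G2 s
noncomputable def N2 (t s : ℝ) : ℝ := U1 t * GG s * Pt t s + 4 * s * UU t * G1 s * Ps t s

/-- The divergence. -/
noncomputable def dv (k lam t s : ℝ) : ℝ :=
  lam * N1 k t s / SD lam t s + lam ^ 3 * N2 t s / (2 * SD lam t s ^ 3)

theorem dv_eq (k lam t s : ℝ) :
    alt lam t s + k * be lam t s + 2 * s * bes lam t s = dv k lam t s := by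
  unfold alt be bes dv N1 N2
  ring

theorem N1_bound {k : ℝ} (hk : 0 ≤ k) :
    ∃ C : ℝ, 0 < C ∧ ∀ t s : ℝ, 0 ≤ s → dl * s ≤ 1 → |N1 k t s| ≤ C := by
  obtain ⟨C, hC, h2⟩ := U2_bounded
  have hd := dl_pos
  refine ⟨C + k * 24 * dl + 96 * dl, by positivity, fun t s hs hds => ?_⟩
  obtain ⟨g0, g1, g2, g3⟩ := GG_bounds hs
  have hU := UU_abs t
  have hU2 := h2 t
  unfold N1
  have e1 : |U2 t * GG s| ≤ C * 1 := by
    rw [abs_mul, abs_of_nonneg g0]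
    gcongr
  have e2 : |k * (2 * UU t * G1 s)| ≤ k * (2 * 4 * (3 * dl)) := by
    rw [abs_mul, abs_mul, abs_mul, abs_of_nonneg hk, abs_of_pos (by norm_num : (0 : ℝ) < 2)]
    gcongr
  have e3 : |4 * s * UU t * G2 s| ≤ 4 * (1 / dl) * 4 * (6 * dl ^ 2) := by
    rw [abs_mul, abs_mul, abs_mul, abs_of_nonneg hs, abs_of_pos (by norm_num : (0 : ℝ) < 4)]
    gcongr
    rw [le_div_iff₀ hd]
    linarith
  have e4 : 4 * (1 / dl) * 4 * (6 * dl ^ 2) = 96 * dl := by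
    field_simp
    ring
  rw [e4] at e3
  have := abs_add_three (U2 t * GG s) (k * (2 * UU t * G1 s)) (4 * s * UU t * G2 s)
  linarith

theorem N2_bound :
    ∃ C : ℝ, 0 < C ∧ ∀ t s : ℝ, 0 ≤ s → dl * s ≤ 1 → |N2 t s| ≤ C * |U2 t| + C * (dl * s) := by
  obtain ⟨C, hC, h2⟩ := U2_bounded
  have hd := dl_pos
  have hd1 : dl ≤ 1 := by unfold dl; norm_num
  refine ⟨2 + (8 * 4 * (3 * dl) ^ 2 + 16 * (3 * dl) *
    (2 * (3 * dl) + 64 * (3 * dl) ^ 2 + 128 * (1 / dl) * (3 * dl) * (6 * dl ^ 2))) / dl,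
    by positivity, fun t s hs hds => ?_⟩
  obtain ⟨g0, g1, g2, g3⟩ := GG_bounds hs
  have hU := UU_abs t
  have hU1 := U1_abs t
  have hs1 : s ≤ 1 / dl := by
    rw [le_div_iff₀ hd]
    linarith
  have hPs : |Ps t s| ≤ 2 * (3 * dl) + 64 * (3 * dl) ^ 2 + 128 * (1 / dl) * (3 * dl) * (6 * dl ^ 2) := by
    unfold Ps
    have e1 : |2 * U1 t ^ 2 * GG s * G1 s| ≤ 2 * 1 ^ 2 * 1 * (3 * dl) := by
      rw [abs_mul, abs_mul, abs_mul, abs_pow, abs_of_nonneg g0, abs_of_pos (by norm_num : (0 : ℝ) < 2)]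
      gcongr
    have e2 : |4 * UU t ^ 2 * G1 s ^ 2| ≤ 4 * 4 ^ 2 * (3 * dl) ^ 2 := by
      rw [abs_mul, abs_mul, abs_pow, abs_pow, abs_of_pos (by norm_num : (0 : ℝ) < 4)]
      gcongr
    have e3 : |8 * s * UU t ^ 2 * G1 s * G2 s| ≤ 8 * (1 / dl) * 4 ^ 2 * (3 * dl) * (6 * dl ^ 2) := by
      rw [abs_mul, abs_mul, abs_mul, abs_mul, abs_pow, abs_of_nonneg hs,
        abs_of_pos (by norm_num : (0 : ℝ) < 8)]
      gcongr
    have := abs_add_three (2 * U1 t ^ 2 * GG s * G1 s) (4 * UU t ^ 2 * G1 s ^ 2)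
      (8 * s * UU t ^ 2 * G1 s * G2 s)
    linarith
  have e0 : N2 t s = 2 * (U1 t ^ 2 * GG s ^ 3) * U2 t
      + s * (8 * UU t * U1 t ^ 2 * GG s * G1 s ^ 2 + 4 * UU t * G1 s * Ps t s) := by
    unfold N2 Pt
    ring
  rw [e0]
  have e1 : |2 * (U1 t ^ 2 * GG s ^ 3) * U2 t| ≤ 2 * (1 ^ 2 * 1 ^ 3) * |U2 t| := by
    rw [abs_mul, abs_mul, abs_mul, abs_pow, abs_pow, abs_of_nonneg g0,
      abs_of_pos (by norm_num : (0 : ℝ) < 2)]
    gcongr
  have e2 : |s * (8 * UU t * U1 t ^ 2 * GG s * G1 s ^ 2 + 4 * UU t * G1 s * Ps t s)|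
      ≤ s * (8 * 4 * (3 * dl) ^ 2 + 16 * (3 * dl) *
    (2 * (3 * dl) + 64 * (3 * dl) ^ 2 + 128 * (1 / dl) * (3 * dl) * (6 * dl ^ 2))) := by
    rw [abs_mul, abs_of_nonneg hs]
    refine mul_le_mul_of_nonneg_left ?_ hs
    have f1 : |8 * UU t * U1 t ^ 2 * GG s * G1 s ^ 2| ≤ 8 * 4 * 1 ^ 2 * 1 * (3 * dl) ^ 2 := by
      rw [abs_mul, abs_mul, abs_mul, abs_mul, abs_pow, abs_pow, abs_of_nonneg g0,
        abs_of_pos (by norm_num : (0 : ℝ) < 8)]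
      gcongr
    have f2 : |4 * UU t * G1 s * Ps t s| ≤ 4 * 4 * (3 * dl) *
        (2 * (3 * dl) + 64 * (3 * dl) ^ 2 + 128 * (1 / dl) * (3 * dl) * (6 * dl ^ 2)) := by
      rw [abs_mul, abs_mul, abs_mul, abs_of_pos (by norm_num : (0 : ℝ) < 4)]
      gcongr
    have := abs_add_le (8 * UU t * U1 t ^ 2 * GG s * G1 s ^ 2) (4 * UU t * G1 s * Ps t s)
    linarith
  set Q := (8 * 4 * (3 * dl) ^ 2 + 16 * (3 * dl) *
    (2 * (3 * dl) + 64 * (3 * dl) ^ 2 + 128 * (1 / dl) * (3 * dl) * (6 * dl ^ 2))) with hQ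
  have hQ0 : 0 ≤ Q := by positivity
  have e3 : s * Q = Q / dl * (dl * s) := by
    field_simp
  have := abs_add_le (2 * (U1 t ^ 2 * GG s ^ 3) * U2 t)
    (s * (8 * UU t * U1 t ^ 2 * GG s * G1 s ^ 2 + 4 * UU t * G1 s * Ps t s))
  have h5 : 0 ≤ Q / dl * |U2 t| := by positivity
  have h6 : 0 ≤ 2 * (dl * s) := by positivity
  have e4 : (2 + Q / dl) * |U2 t| + (2 + Q / dl) * (dl * s)
      = 2 * |U2 t| + Q / dl * |U2 t| + (2 * (dl * s) + Q / dl * (dl * s)) := by ring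
  rw [e4, ← e3]
  linarith

/-- The divergence is bounded by `C (δ s)^(-3/4)` uniformly in `λ`. -/
theorem dv_bound {k : ℝ} (hk : 0 ≤ k) :
    ∃ C : ℝ, 0 < C ∧ ∀ lam t s : ℝ, 0 ≤ lam → lam ≤ 1 → 0 < s →
      |dv k lam t s| ≤ C * (dl * s) ^ (-(3 / 4) : ℝ) := by
  obtain ⟨C1, hC1, h1⟩ := N1_bound hk
  obtain ⟨C2, hC2, h2⟩ := N2_bound
  obtain ⟨C3, hC3, h3⟩ := U2_bound
  have hd := dl_pos
  refine ⟨C1 * 2 ^ (1 / 2 : ℝ) + (C2 * C3 + C2) * 2 ^ (3 / 2 : ℝ), by positivity, ?_⟩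
  intro lam t s hl hl1 hs
  set z := dl * s with hz
  have hz0 : 0 < z := by positivity
  rcases le_total 1 z with hz1 | hz1
  · obtain ⟨g1, g2, g3⟩ := GG_zero hz1
    have : dv k lam t s = 0 := by
      unfold dv N1 N2
      rw [g1, g2, g3]
      simp
    rw [this, abs_zero]
    positivity
  · set D := 1 - lam ^ 2 * PP t s with hD
    obtain ⟨d1, d2⟩ := one_sub_PP (t := t) hs.le
    rw [← hz, min_eq_left hz1] at d2
    have hP0 := PP_nonneg (t := t) hs.le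
    have hlam : lam ^ 2 ≤ 1 := by nlinarith
    have hDP : 1 - PP t s ≤ D := by
      rw [hD]
      nlinarith
    have hDz : z ≤ 2 * D := by linarith
    have hDy : yy t ≤ 2 * D := by linarith
    have hD0 : 0 < D := by linarith
    have hS : SD lam t s = √D := rfl
    have hS0 : 0 < √D := Real.sqrt_pos.2 hD0
    have hS1 : √D = D ^ (1 / 2 : ℝ) := Real.sqrt_eq_rpow D
    have hS3 : √D ^ 3 = D ^ (3 / 2 : ℝ) := by
      rw [hS1, ← Real.rpow_natCast, ← Real.rpow_mul hD0.le]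
      norm_num
    have hzp : 0 < z ^ (3 / 4 : ℝ) := Real.rpow_pos_of_pos hz0 _
    have hneg : z ^ (-(3 / 4) : ℝ) = (z ^ (3 / 4 : ℝ))⁻¹ := Real.rpow_neg hz0.le _
    -- three elementary inequalities
    have q1 : z ^ (3 / 4 : ℝ) ≤ 2 ^ (1 / 2 : ℝ) * √D := by
      rw [hS1, ← Real.mul_rpow (by norm_num) hD0.le]
      refine le_trans ?_ (Real.rpow_le_rpow hz0.le hDz (by norm_num))
      exact Real.rpow_le_rpow_of_exponent_ge hz0 hz1 (by norm_num)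
    have q2 : z * z ^ (3 / 4 : ℝ) ≤ 2 ^ (3 / 2 : ℝ) * √D ^ 3 := by
      rw [hS3, ← Real.mul_rpow (by norm_num) hD0.le]
      refine le_trans ?_ (Real.rpow_le_rpow hz0.le hDz (by norm_num))
      have : z * z ^ (3 / 4 : ℝ) = z ^ (7 / 4 : ℝ) := by
        nth_rewrite 1 [← Real.rpow_one z]
        rw [← Real.rpow_add hz0]
        norm_num
      rw [this]
      exact Real.rpow_le_rpow_of_exponent_ge hz0 hz1 (by norm_num)
    have q3 : yy t ^ (3 / 4 : ℝ) * z ^ (3 / 4 : ℝ) ≤ 2 ^ (3 / 2 : ℝ) * √D ^ 3 := by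
      rw [hS3, ← Real.mul_rpow (by norm_num) hD0.le]
      have h2D : 0 < 2 * D := by positivity
      have : (2 * D) ^ (3 / 2 : ℝ) = (2 * D) ^ (3 / 4 : ℝ) * (2 * D) ^ (3 / 4 : ℝ) := by
        rw [← Real.rpow_add h2D]
        norm_num
      rw [this]
      have a1 := Real.rpow_le_rpow hz0.le hDz (by norm_num : (0 : ℝ) ≤ 3 / 4)
      have a2 := Real.rpow_le_rpow (yy_nonneg t) hDy (by norm_num : (0 : ℝ) ≤ 3 / 4)
      gcongr
    unfold dv
    rw [hS, hneg]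
    have e1 : |lam * N1 k t s / √D| ≤ C1 * 2 ^ (1 / 2 : ℝ) * (z ^ (3 / 4 : ℝ))⁻¹ := by
      rw [abs_div, abs_mul, abs_of_pos hS0, abs_of_nonneg hl, div_le_iff₀ hS0]
      have b1 : lam * |N1 k t s| ≤ 1 * C1 := by
        gcongr
        exact h1 t s hs.le hz1
      have b2 : 1 ≤ 2 ^ (1 / 2 : ℝ) * √D * (z ^ (3 / 4 : ℝ))⁻¹ := by
        rw [← div_eq_mul_inv, one_le_div hzp]
        exact q1
      calc lam * |N1 k t s| ≤ C1 * 1 := by linarith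
        _ ≤ C1 * (2 ^ (1 / 2 : ℝ) * √D * (z ^ (3 / 4 : ℝ))⁻¹) := by gcongr
        _ = C1 * 2 ^ (1 / 2 : ℝ) * (z ^ (3 / 4 : ℝ))⁻¹ * √D := by ring
    have e2 : |lam ^ 3 * N2 t s / (2 * √D ^ 3)|
        ≤ (C2 * C3 + C2) * 2 ^ (3 / 2 : ℝ) * (z ^ (3 / 4 : ℝ))⁻¹ := by
      have hS30 : 0 < 2 * √D ^ 3 := by positivity
      rw [abs_div, abs_mul, abs_of_pos hS30, abs_of_nonneg (pow_nonneg hl 3), div_le_iff₀ hS30]
      have b0 := h2 t s hs.le hz1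
      have b1 : lam ^ 3 * |N2 t s| ≤ 1 * (C2 * |U2 t| + C2 * z) := by
        gcongr
        exact pow_le_one₀ hl hl1
      have b3 : |U2 t| ≤ C3 * yy t ^ (3 / 4 : ℝ) := h3 t
      have b4 : yy t ^ (3 / 4 : ℝ) ≤ 2 ^ (3 / 2 : ℝ) * √D ^ 3 * (z ^ (3 / 4 : ℝ))⁻¹ := by
        rw [← div_eq_mul_inv, le_div_iff₀ hzp]
        exact q3
      have b5 : z ≤ 2 ^ (3 / 2 : ℝ) * √D ^ 3 * (z ^ (3 / 4 : ℝ))⁻¹ := by
        rw [← div_eq_mul_inv, le_div_iff₀ hzp]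
        exact q2
      have b6 : 0 ≤ (C2 * C3 + C2) * (2 ^ (3 / 2 : ℝ) * √D ^ 3 * (z ^ (3 / 4 : ℝ))⁻¹) := by
        positivity
      calc lam ^ 3 * |N2 t s| ≤ C2 * |U2 t| + C2 * z := by linarith
        _ ≤ C2 * (C3 * (2 ^ (3 / 2 : ℝ) * √D ^ 3 * (z ^ (3 / 4 : ℝ))⁻¹))
            + C2 * (2 ^ (3 / 2 : ℝ) * √D ^ 3 * (z ^ (3 / 4 : ℝ))⁻¹) := by
          refine add_le_add ?_ ?_
          · refine mul_le_mul_of_nonneg_left ?_ hC2.le
            exact b3.trans (mul_le_mul_of_nonneg_left b4 hC3.le)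
          · exact mul_le_mul_of_nonneg_left b5 hC2.le
        _ = (C2 * C3 + C2) * (2 ^ (3 / 2 : ℝ) * √D ^ 3 * (z ^ (3 / 4 : ℝ))⁻¹) := by ring
        _ ≤ 2 * ((C2 * C3 + C2) * (2 ^ (3 / 2 : ℝ) * √D ^ 3 * (z ^ (3 / 4 : ℝ))⁻¹)) := by linarith
        _ = (C2 * C3 + C2) * 2 ^ (3 / 2 : ℝ) * (z ^ (3 / 4 : ℝ))⁻¹ * (2 * √D ^ 3) := by ring
    calc |lam * N1 k t s / √D + lam ^ 3 * N2 t s / (2 * √D ^ 3)|
        ≤ |lam * N1 k t s / √D| + |lam ^ 3 * N2 t s / (2 * √D ^ 3)| := abs_add_le _ _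
      _ ≤ _ := by
        rw [add_mul]
        exact add_le_add e1 e2

theorem dv_zero {k lam t s : ℝ} (h : 1 ≤ dl * s ∨ 7 < |t|) : dv k lam t s = 0 := by
  rcases h with h | h
  · obtain ⟨g1, g2, g3⟩ := GG_zero h
    unfold dv N1 N2
    rw [g1, g2, g3]
    simp
  · have h1 : UU t = 0 := UU_zero h.le
    have hev : ∀ᶠ y in 𝓝 t, 7 < |y| := continuous_abs.continuousAt.eventually (lt_mem_nhds h)
    have h2 : UU =ᶠ[𝓝 t] fun _ => 0 := by
      filter_upwards [hev] with y hy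
      exact UU_zero hy.le
    have h3 : ∀ y, 7 < |y| → U1 y = 0 := by
      intro y hy
      have hev : ∀ᶠ z in 𝓝 y, 7 < |z| := continuous_abs.continuousAt.eventually (lt_mem_nhds hy)
      have h2 : UU =ᶠ[𝓝 y] fun _ => 0 := by
        filter_upwards [hev] with y hy
        exact UU_zero hy.le
      rw [← (UU_hasDeriv y).deriv, h2.deriv_eq]
      simp
    have h4 : U1 =ᶠ[𝓝 t] fun _ => 0 := by
      filter_upwards [hev] with y hy
      exact h3 y hy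
    have h5 : U2 t = 0 := by
      rw [← (U1_hasDeriv t).deriv, h4.deriv_eq]
      simp
    have h6 : U1 t = 0 := h3 t h
    unfold dv N1 N2
    rw [h1, h5, h6]
    simp

end Pool.Agent.U562.LS
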